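import Pool.Agent.X39.Near.MasterI
import Pool.Agent.Y771.RP.Ferm

/-!
# Periods of Fermat curves at ALL rational parameters close to any number outside a set of dimension zero

The periods of the Fermat curve `x^m + y^m = 1` are, up to algebraic factors, the numbers
`B(r, s) = ∫_0^1 x^(r-1) (1-x)^(s-1) dx` with `r, s ∈ (1/m)ℤ`, and `π`. Let `ρ_1, …, ρ_m > 0` be such that no `ρ_i` and
no `ρ_i - ρ_k` (`i ≠ k`) is an integer. Outside ONE set of complex numbers `x` of Hausdorff dimension `0`, for all number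
fields `F ⊂ ℂ`, all `ω > 0`, `d` and `A` there are `R` and `T₁` such that for all `T ≥ T₁` and ALL `t ∈ F`, `Re t > 0`,
of height at most `T` with `|t - x| ≤ T ^ (-ω)` (for instance all rational numbers of height at most `T` in this disc)
the numbers `B(t, ρ_1), …, B(t, ρ_m)` satisfy no relation of degree at most `d` with coefficients which are polynomials
of degree at most `d` in the `u_k(t) / w(t)` and in given complex numbers `ξ_i` (for instance `π`, or the periods of
any other variety), with coefficients in `F` of height at most `T ^ A`, not even up to `T ^ (-R)`. In particular this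
holds at the convergents of all positive irrational real numbers outside this set, from some point on.
-/

set_option autoImplicit false

open MeasureTheory NumberField

namespace Pool.Agent.Results.MP_cbf1af_ag.ApproximationsOfAllNumbers

open Pool.Agent.X39.Near (Size Dependent)

/-- `B(t, ρ) = Γ(t) Γ(ρ) / Γ(t + ρ)`, for `Re t > 0` the integral `∫_0^1 x^(t-1) (1-x)^(ρ-1) dx` -/
noncomputable def beta {m : ℕ} (ρ : Fin m → ℝ) (i : Fin m) (t : ℂ) : ℂ :=
  Complex.Gamma t * Complex.Gamma (ρ i) / Complex.Gamma (t + ρ i)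

/-- the right half-plane -/
def H : Set ℂ := {t | 0 < t.re}

/-- **Theorem.** Let `ρ_1, …, ρ_m > 0` be such that no `ρ_i` and no `ρ_i - ρ_k` (`i ≠ k`) is an integer; let `u_k`,
`w` be complex polynomials, `w` without zeros in the right half-plane `H`, and `ξ_1, …, ξ_g` complex numbers. (The first
part says that `beta` is Euler's integral.) There is a set `E` of complex numbers of Hausdorff dimension `0` such that: (1) for all `x ∈ H` outside `E`, all
number fields `F` with an embedding `ι` in `ℂ`, all `d`, `A` and `ω > 0` there are `B`, `T₁` such that for all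
`T ≥ T₁` and all `t ∈ F`, quotients of integers with conjugates at most `T`, with `|ι t - x| ≤ T ^ (-ω)`, the
values of these functions at `t` are not dependent; (2) for all irrational real `x ∈ H` outside `E` and all `d`,
`A` there is `B` such that the values at the convergents `t` of `x` are not dependent over `ℚ`, at the level of
the denominator, from some point on. -/
theorem result {m q g : ℕ} (ρ : Fin m → ℝ) (hρ : ∀ i, 0 < ρ i) (h1 : ∀ i, ∀ z : ℤ, ρ i ≠ z)
    (h2 : ∀ i k, i ≠ k → ∀ z : ℤ, ρ i - ρ k ≠ z)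
    (u : Fin q → Polynomial ℂ) (w : Polynomial ℂ) (hw : ∀ t ∈ H, w.eval t ≠ 0) (ξ : Fin g → ℂ) :
    (∀ i, ∀ t ∈ H, beta ρ i t =
      ∫ x in (0 : ℝ)..1, (x : ℂ) ^ (t - 1) * (1 - (x : ℂ)) ^ ((ρ i : ℂ) - 1)) ∧
    ∃ E : Set ℂ, dimH E = 0 ∧
      (∀ x ∈ H, x ∉ E → ∀ (F : Type) [Field F] [NumberField F] (ι : F →+* ℂ)
        (d A : ℕ) (ω : ℝ), 0 < ω → ∃ B T₁ : ℝ, ∀ T : ℝ, T₁ ≤ T → ∀ t : F, Size F T t →
          ‖ι t - x‖ ≤ T ^ (-ω) → ¬ Dependent (beta ρ) u w ξ F ι d A B T t) ∧
      ∀ x : ℝ, Irrational x → (x : ℂ) ∈ H → (x : ℂ) ∉ E → ∀ d A : ℕ, ∃ (B : ℝ) (n₀ : ℕ), ∀ k : ℕ,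
        n₀ ≤ k → ¬ Dependent (beta ρ) u w ξ ℚ (algebraMap ℚ ℂ) d A B (x.convergent k).den
          (x.convergent k) := by
  refine ⟨fun i t ht => ?_, ?_⟩
  · have hr : 0 < ((ρ i : ℝ) : ℂ).re := by simpa using hρ i
    have h3 := Complex.Gamma_mul_Gamma_eq_betaIntegral (s := t) (t := ((ρ i : ℝ) : ℂ)) ht hr
    have h4 : Complex.Gamma (t + (ρ i : ℂ)) ≠ 0 := by
      apply Complex.Gamma_ne_zero_of_re_pos
      have ht' : 0 < t.re := ht
      simpa using add_pos ht' (hρ i)
    change Complex.Gamma t * Complex.Gamma (ρ i) / Complex.Gamma (t + ρ i) = _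
    rw [h3, mul_div_cancel_left₀ _ h4]
    rfl
  · exact Pool.Agent.X39.Near.master H (isOpen_lt continuous_const Complex.continuous_re) (beta ρ)
      (fun i t ht => Pool.Agent.Y771.RP.fB_an (hρ i) ht)
      (fun t ht => Pool.Agent.Y771.RP.fB_locInd ρ hρ h1 h2 t ht) u w hw ξ

end Pool.Agent.Results.MP_cbf1af_ag.ApproximationsOfAllNumbers
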