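import Pool.Agent.X255.RH.Leg

/-!
# The periods of the Legendre curves at almost all algebraic numbers, jointly for all conjugates

The periods of the elliptic curve `E_z : y ^ 2 = x (x - 1) (x - z)` (or `y ^ 2 = (1 - x ^ 2) (1 - z x ^ 2)`) are, up to rational
factors, `K (z)`, `E (z)`, `K (1 - z)`, `E (1 - z)`, where `K`, `E` are the complete elliptic integrals as functions of the
parameter `z = k ^ 2`; `E (1 - z)` is a rational function of the other three and `π` (Legendre's relation). The motivic
Galois group of the product of the `E_z`, `z` the conjugates of a general algebraic number of degree `g`, has dimension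
`3 g + 1`, so the period conjecture predicts that the `3 g` numbers `K (z)`, `E (z)`, `K (1 - z)` and `π` are algebraically
independent. We prove for 100% of the integral polynomials of degree `g`, ordered by the maximum `T` of the absolute
values of the coefficients, that these numbers, for ALL roots `z` of the polynomial which are not real and `≤ 0` or
`≥ 1`, satisfy no relation whose degree, and the degree of whose coefficient field, is at most `ω (T)`, and whose
coefficients are of size at most `T ^ ω (T)`, where `ω (T) → ∞`; the coefficients may also contain arbitrary fixed complex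
numbers `ξ_b` (elements of a field `k ⊂ ℂ` over which the curves are considered, for instance powers of `π`). We also
prove, for integral polynomials of degree at most `k` in these numbers, a measure of algebraic independence
`|P| ≥ H ^ (-C)` for the heights `H` between `T ^ (1 / k)` and `T ^ k`.

Proof: `Pool.Agent.X255.NP` and `Pool.Agent.Y890.MV` (nonstandard versions of the Bombieri-Pila method), the algebraic
independence over `ℂ(z)` of the functions (`Pool.Agent.Y124.EllInd`), and `Pool.Agent.X255.RH` (independence of functions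
of different variables; almost no integral polynomial has close roots or roots close to a given point).
-/

set_option autoImplicit false

open Polynomial Filter NumberField
open scoped Classical

namespace Pool.Agent.Results.MP_cbf1af_ag.ConjugateLegendreCurves

/-- the complete elliptic integral of the first kind, `K (m) = ∫ (1 - m sin² θ) ^ (-1/2) dθ`, `0 ≤ θ ≤ π / 2` -/
noncomputable def ellK (m : ℂ) : ℂ := ∫ θ in (0 : ℝ)..(Real.pi / 2), (1 - m * (Real.sin θ : ℂ) ^ 2) ^ (-(1 / 2) : ℂ)

/-- the complete elliptic integral of the second kind, `E (m) = ∫ (1 - m sin² θ) ^ (1/2) dθ`, `0 ≤ θ ≤ π / 2` -/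
noncomputable def ellE (m : ℂ) : ℂ := ∫ θ in (0 : ℝ)..(Real.pi / 2), (1 - m * (Real.sin θ : ℂ) ^ 2) ^ (1 / 2 : ℂ)

/-- the numbers `K (z)`, `E (z)`, `K (1 - z)` -/
noncomputable def value (z : ℂ) (i : Fin 3) : ℂ := ![ellK z, ellE z, ellK (1 - z)] i

/-- the complex numbers which are not real and `≤ 0` or `≥ 1` -/
def cut : Set ℂ := {z | z ∈ Complex.slitPlane ∧ 1 - z ∈ Complex.slitPlane}

/-- the polynomial `a_g X ^ g + … + a_0` -/
noncomputable def poly {g : ℕ} (a : Fin (g + 1) → ℤ) : ℂ[X] := ∑ i, C (a i : ℂ) * X ^ (i : ℕ)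

/-- the roots of the polynomial in the set `V` -/
noncomputable def rootsIn (V : Set ℂ) {g : ℕ} (a : Fin (g + 1) → ℤ) : Finset ℂ :=
  (poly a).roots.toFinset.filter fun z => z ∈ V

/-- The numbers `x q`, `q ∈ Q`, satisfy no relation of degree at most `k` in each of them with coefficients
`∑ ξ b * c b`, `b < k`, where the `c b` are integers of a number field of degree at most `k`, all of whose conjugates
are of absolute value at most `T ^ k`, except the relations all of whose coefficients vanish. -/
def Unrelated {Q : Type} [Fintype Q] [DecidableEq Q] (ξ : ℕ → ℂ) (k : ℕ) (T : ℝ) (x : Q → ℂ) : Prop :=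
  ∀ (F : Type) [Field F] [NumberField F], Module.finrank ℚ F ≤ k → ∀ (io : F →+* ℂ)
    (c : (Q → Fin (k + 1)) → Fin k → 𝓞 F), (∀ l b (φ : F →+* ℂ), ‖φ (c l b : F)‖ ≤ T ^ k) →
    ∑ l, (∑ b : Fin k, ξ b * io (c l b : F)) * ∏ q, x q ^ (l q : ℕ) = 0 → ∀ l, ∑ b : Fin k, ξ b * io (c l b : F) = 0

/-- Lower bounds for heights between `T ^ (1 / k)` and `T ^ k`: every nonzero integral polynomial `P` of total degree at
most `k` and height at most `H` satisfies `|P (x)| ≥ H ^ (-C)`. -/
def Measure {Q : Type} (k : ℕ) (C T : ℝ) (x : Q → ℂ) : Prop :=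
  ∀ H : ℝ, T ^ ((1 : ℝ) / k) ≤ H → H ≤ T ^ k → ∀ P : MvPolynomial Q ℤ, P ≠ 0 → P.totalDegree ≤ k →
    (∀ m, |((P.coeff m : ℤ) : ℝ)| ≤ H) → H ^ (-C) ≤ ‖MvPolynomial.aeval x P‖

/-- the `a` with `|a_i| ≤ T` -/
noncomputable def box (g T : ℕ) : Finset (Fin (g + 1) → ℤ) := Fintype.piFinset fun _ => Finset.Icc (-(T : ℤ)) T

/-- the numbers `K (z)`, `E (z)`, `K (1 - z)`, `z` all roots of `a` in `cut` -/
noncomputable def numbers {g : ℕ} (a : Fin (g + 1) → ℤ) (q : {z // z ∈ rootsIn cut a} × Fin 3) : ℂ :=
  value q.1 q.2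

/-- `a` is of degree `g`, with simple roots, and the numbers are unrelated -/
def Good {g : ℕ}  (ξ : ℕ → ℂ) (k : ℕ) (T : ℝ) (a : Fin (g + 1) → ℤ) : Prop :=
  a (Fin.last g) ≠ 0 ∧ (poly a).Separable ∧ Unrelated ξ k T (numbers  a)

/-- `a` is of degree `g`, with simple roots, and the numbers satisfy the lower bounds -/
def GoodM {g : ℕ}  (k : ℕ) (C T : ℝ) (a : Fin (g + 1) → ℤ) : Prop :=
  a (Fin.last g) ≠ 0 ∧ (poly a).Separable ∧ Measure k C T (numbers  a)

/-- `a` is of degree `g`, its roots are simple, of absolute value at most `R`, at distance at least `η` from each other,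
and the roots in `V` are at distance at least `η` from the complement of `V` -/
def Position (V : Set ℂ) (R η : ℝ) {g : ℕ} (a : Fin (g + 1) → ℤ) : Prop :=
  a (Fin.last g) ≠ 0 ∧ (poly a).Separable ∧ ∀ z, (poly a).eval z = 0 → ‖z‖ ≤ R ∧
    (∀ w, (poly a).eval w = 0 → w ≠ z → η ≤ ‖z - w‖) ∧ (z ∈ V → Metric.ball z η ⊆ V)

theorem value_eq (i : Fin 3) : Pool.Agent.Y124.fC i = fun z => value z i := by
  funext z
  fin_cases i <;> rfl

/-- **Theorem.** Let `g ≥ 1`.
(1) For every sequence `ξ` there is a monotone `ω`, `ω(T) → ∞`, such that the proportion of the polynomials with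
`|a_i| ≤ T` which are not `Good` with `k = ω(T)` is at most `1 / ω(T)`.
(2) For every `k ≥ 1` there are `C` and `T₀` such that for `T ≥ T₀` the proportion of the polynomials with `|a_i| ≤ T`
which are not `GoodM` is at most `1 / k`.
(3) For fixed `k ≥ 1`, `R`, `η > 0` and `ε > 0` there are `B`, `C` such that the lower bounds `Measure k B T` hold for all
but `C T ^ (g + ε)` of the polynomials with `|a_i| ≤ T` whose roots are in the compact position `Position cut R η`
(there are about `(2 T) ^ (g + 1)` polynomials). -/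
theorem result (g : ℕ) (hg : 0 < g)  :
    (∀ ξ : ℕ → ℂ, ∃ ω : ℕ → ℕ, Tendsto ω atTop atTop ∧ Monotone ω ∧ ∀ T,
      ω T * ((box g T).filter fun a => ¬ Good  ξ (ω T) T a).card ≤ (box g T).card) ∧
    (∀ k : ℕ, 1 ≤ k → ∃ (C : ℝ) (T₀ : ℕ), ∀ T : ℕ, T₀ ≤ T →
      (k : ℝ) * ((box g T).filter fun a => ¬ GoodM  k C T a).card ≤ (box g T).card) ∧
    ∀ (k : ℕ) (R η ε : ℝ), 1 ≤ k → 0 < η → 0 < ε → ∃ B C : ℝ, ∀ T : ℕ, 1 ≤ T →
      (((box g T).filter fun a => Position cut R η a ∧ ¬ Measure k B T (numbers  a)).card : ℝ) ≤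
        C * (T : ℝ) ^ ((g : ℝ) + ε) := by
  have hop : IsOpen cut := Pool.Agent.Y124.isOpen_Dom
  have hpre : IsPreconnected cut := Pool.Agent.Y124.isPreconnected_Dom
  have htame : Pool.Agent.X255.RH.Tame cut cut := Pool.Agent.X255.RH.tame_Dom
  have han : ∀ w : Fin 3, AnalyticOnNhd ℂ (fun z => value z w) cut := by
    intro w
    rw [← value_eq]
    exact fun z hz => Pool.Agent.Y124.fC_analytic w z hz
  have hind : Pool.Agent.X255.RH.Indep cut (fun (w : Fin 3) z => value z w) := by
    have h1 := Pool.Agent.X255.RH.leg_indep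
    rwa [show Pool.Agent.Y124.fC = fun w z => value z w from funext fun w => value_eq w] at h1
  have h2 := fun (k : ℕ) (hk : 1 ≤ k) => Pool.Agent.X255.RH.mea_all (g := g) hg hpre hop htame han hind k hk
  refine ⟨fun ξ => ?_, fun k hk => ?_, fun k R η ε hk hη hε => ?_⟩
  · exact Pool.Agent.X255.RH.main_all (g := g) hg hpre hop (fun _ => cut) (fun _ => htame) han hind ξ
  · obtain ⟨B, T₀, h⟩ := h2 k hk
    refine ⟨k * max B 0, max 1 T₀, fun T hT => ?_⟩
    have hT1 : (1 : ℝ) ≤ T := by exact_mod_cast (le_max_left _ _).trans hT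
    have h3 := h T ((le_max_right _ _).trans hT) (fun b => if b = 0 then 1 else 0)
    refine le_trans ?_ h3
    refine mul_le_mul_of_nonneg_left ?_ (Nat.cast_nonneg _)
    refine Nat.cast_le.2 (Finset.card_le_card fun a ha => ?_)
    rw [Finset.mem_filter] at ha ⊢
    refine ⟨ha.1, fun hgood => ha.2 ⟨hgood.1, hgood.2.1, ?_⟩⟩
    intro H hH1 hH2 P hP hd hc
    exact hgood.2.2.height hk hT1 hH1 hH2 P hP hd hc
  · obtain ⟨B, C, h⟩ := Pool.Agent.X255.RH.mea_eps (g := g) hg hpre hop han hind cut k R η ε hη hε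
    refine ⟨k * max B 0, C, fun T hT => ?_⟩
    have hT1 : (1 : ℝ) ≤ T := by exact_mod_cast hT
    refine le_trans ?_ (h T hT (fun b => if b = 0 then 1 else 0))
    refine Nat.cast_le.2 (Finset.card_le_card fun a ha => ?_)
    rw [Finset.mem_filter] at ha ⊢
    refine ⟨ha.1, ha.2.1, fun hm => ha.2.2 ?_⟩
    intro H hH1 hH2 P hP hd hc
    exact hm.height hk hT1 hH1 hH2 P hP hd hc

end Pool.Agent.Results.MP_cbf1af_ag.ConjugateLegendreCurves
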