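import Pool.Agent.X120.GS.RlA
import Pool.Agent.Y123.ST.Out

/-!
# The ideal of all period relations of bounded degree over all number fields of bounded degree, at `x = b^(-n)`

Let `h_i`, `1 ≤ i ≤ k`, be families of G-functions over `ℚ` (with the conditions of Siegel and Galochkin, regular singular
with rational exponents at `∞`) and let `P_i(x)` be square matrices whose entries are polynomials with arbitrary complex
coefficients in the `h_{i,l}(x)`: for example the period matrices (rows: Betti, columns: de Rham) of `H^j(X_{i,x})`, near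
a good fibre over `0`, for families `X_i` of smooth projective varieties over open parts of the line. Let `Gal(P_i)` be the group of the
matrices `g` such that `P_i` and `g P_i` satisfy the same polynomial relations over `ℂ(x)`; if `P_i` is a fundamental
matrix of the Gauss-Manin system this is the Zariski closure of the monodromy group. Let `b_i ≥ 2` be integers, and let `Z_i = P_i(b_i^(-n_i))` be the
period matrices of the fibres.

**Theorem.** Let `D`, `d`, `m` be natural numbers. For all but `C T^(k-1) log T` of the tuples `(n_1, …, n_k)` in `[1, T]^k`, in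
particular for all but `C log T` of the first `T` fibres of the sequence `b^(-n)` if `k = 1`, where `C` depends only on `D`, `d`, `m`,
the `h_i`, the `b_i`, `k`, the ranks and the degrees of the `P_i` as polynomials, the following holds for **all number fields**
`K` of degree at most `D` at once and all polynomials `F` over `K` of degree at most `d`.

1. (Relative to any constants `ξ ∈ ℂ^m`, for example the periods of a fixed motive.) If `F(Z, ξ) = 0` then `F(g Z, ξ) = 0` for
   all `g ∈ ∏_i U_i`, where `U_i` is the group generated by all unipotent one-parameter groups in `Gal(P_i)`. By a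
   theorem of Deligne this is the connected component of `Gal(P_i)` for families of smooth projective varieties.
2. Let `Gal(P_i)` contain, for all `i`, the group `special(B_i)` of the matrices of determinant `1` which respect a form
   `B_i`, where `B_i` is alternating and nondegenerate, or symmetric and nondegenerate of rank `≠ 2`, or zero. If `F(Z, ξ) = 0`
   then `F(Y, ξ) = 0` for all `Y = (Y_i)` which respect polarisations and determinants as `Z` does.
3. (The absolute case.) Suppose moreover that the `B_i` are nondegenerate, and that `Z_i Q_i Z_i^t = (2πi)^(w_i) B_i` with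
   polarisations `B_i` (Betti), `Q_i` (de Rham) over `K`, and `det Z_i = δ_i (2πi)^(w_i n_i / 2)`, `δ_i ∈ K` (in the symplectic case this
   is superfluous). Then the relations `F(Z, 2πi) = 0` of degree at most `d` over `K` between the periods and `2πi` are exactly the
   polynomials of degree at most `d` in the ideal of the torsor of all `(Y, z)` with `Y_i Q_i Y_i^t = z^(w_i) B_i` and `det Y_i = δ_i z^(w_i n_i / 2)`.

In the third part the torsor is that of the motivic Galois group for the Hodge generic fibres: the group is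
`{(g, z) : g_i B_i g_i^t = z^(w_i) B_i}`, for `k = 1`, `w = 1` the group `GSp` of symplectic similitudes, and the dimension of the torsor is
the dimension of the Mumford-Tate group of the direct sum of the `H^j(X_i)` (for `k = 1`) and `ℚ(-1)`. As this torsor is irreducible, the
period conjecture for `Z` is the statement that **all** relations over `ℚ̄` are in this ideal. So the theorem is the period
conjecture up to degree `d` and for coefficients in all fields of degree at most `D` together, in the relative form (for fixed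
motives with periods `ξ`) as well. Moreover there are `M(T) → ∞` and `ε(T) → 0` such that for all but `ε(T) T^k` tuples in `[1, T]^k` all
this is true for all number fields of degree at most `M(T)`, all polynomials of degree at most `M(T)` and `M(T)` constants.

The earlier theorems of this kind are about all rational (or algebraic) points of height at most `H`, with at least `H^(o(1))`
exceptions; as there are only `O(log H)` numbers `b^(-n)` of height at most `H` they say nothing about these points.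
MP_caab05_ag.GeometricSequencesTorsors concerns all subtorsors over `K` (of any degree) which contain the period point, but not
other subvarieties: the transcendence degree of the periods, as in the problem, is about all relations. The degree-`δ` theorem in
MP_290158_ag.GeometricSequences is for one number field at a time (each field has its own exceptions) and
without constants.

Proof. (Relations over `ℚ`) Counting on geometric sequences (`Pool.Agent.X120.GS`) with the coefficients in the `ℚ`-space which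
is spanned by the products of the constants. (All fields) If `F` is over `K` consider the relations of degree `≤ d D^D` over `ℚ` which hold on
a polynomial curve in the group through `1`; as a curve is irreducible, one conjugate of `F` over the Galois closure vanishes on
it, and the Galois group permutes these (`Pool.Agent.Y123.GN.Rl_all`). (Torsors) The classical groups are generated by their
unipotent elements, the fibre over `2πi` of the torsor is an orbit; then by the automorphisms of `ℂ` over `K` all relations hold on the fibres over all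
transcendental `z`, and by continuity, with the curves `(t^(w_i) Y_i, t^2 z)`, on all fibres.
-/

set_option autoImplicit false

open PowerSeries Filter
open scoped Matrix

namespace Pool.Agent.Results.MP_cbf1af_ag.GeometricSequencesAllFields

/-- an integer polynomial as a power series with rational coefficients -/
noncomputable def toQ (P : Polynomial ℤ) : PowerSeries ℚ := ((P.map (Int.castRingHom ℚ) : Polynomial ℚ) : PowerSeries ℚ)

/-- the power series `P(u^e)` -/
noncomputable def atPow (e : ℕ) (P : Polynomial ℤ) : PowerSeries ℂ :=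
  ((Polynomial.expand ℂ e (P.map (Int.castRingHom ℂ)) : Polynomial ℂ) : PowerSeries ℂ)

/-- the matrices `G_s` over `ℤ[x]` with `T^s y^(s) = G_s y` for all solutions `y` of `T y' = A y` -/
noncomputable def iter {r : ℕ} (T : Polynomial ℤ) (A : Fin r → Fin r → Polynomial ℤ) : ℕ → Fin r → Fin r → Polynomial ℤ
  | 0 => fun i j => if i = j then 1 else 0
  | s + 1 => fun i j => T * Polynomial.derivative (iter T A s i j) + ∑ l, iter T A s i l * A l j -
      (s : Polynomial ℤ) * (Polynomial.derivative T * iter T A s i j)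

/-- The system `T y' = A y` has a fundamental matrix of solutions of the form `u^(-M) ∑_n Φ_n(u) (log u)^n` with
`u^e = x` and convergent power series `Φ_n`: the point `0` is regular or a regular singularity with rational
exponents. -/
def QuasiUnipotent {r : ℕ} (T : Polynomial ℤ) (A : Fin r → Fin r → Polynomial ℤ) : Prop :=
  ∃ (e M : ℕ) (K : ℝ) (Φ : Matrix (Fin r) (Fin r) (Polynomial (PowerSeries ℂ))), 1 ≤ e ∧ Φ.det ≠ 0 ∧
    (∀ i j n m, ‖coeff m ((Φ i j).coeff n)‖ ≤ K ^ (m + 1)) ∧
    ∀ i j n, atPow e T * (X * PowerSeries.derivative ℂ ((Φ i j).coeff n) +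
        ((n : PowerSeries ℂ) + 1) * (Φ i j).coeff (n + 1) - (M : PowerSeries ℂ) * (Φ i j).coeff n) =
      (e : PowerSeries ℂ) * X ^ e * ∑ l, atPow e (A i l) * (Φ l j).coeff n

/-- `h_1, ..., h_r` are G-functions with rational coefficients which solve the differential system `T y' = A y`, with
the conditions of Siegel and Galochkin, and `∞` is a regular point or a regular singularity with rational exponents of the
system: for `z = 1 / x` the system is `z² T^(z) dy/dz = - A^(z) y` where `T^(z) = z^d T(1/z)` and `A^(z) = z^d A(1/z)` are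
the reflected polynomials. -/
structure GFamily {r : ℕ} (T : Polynomial ℤ) (A : Fin r → Fin r → Polynomial ℤ) (h : Fin r → PowerSeries ℚ) : Prop where
  /-- the denominator is not zero -/
  T_ne : T ≠ 0
  /-- the differential equations -/
  ode : ∀ i, toQ T * PowerSeries.derivative ℚ (h i) = ∑ j, toQ (A i j) * h j
  /-- the coefficients have geometric growth -/
  size : ∃ C : ℝ, ∀ i m, |((coeff m (h i) : ℚ) : ℝ)| ≤ C ^ (m + 1)
  /-- the common denominators of the coefficients have geometric growth -/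
  den : ∃ C : ℝ, ∀ m : ℕ, ∃ d : ℕ, 0 < d ∧ (d : ℝ) ≤ C ^ (m + 1) ∧ ∀ i, ∀ j ≤ m, ∃ a : ℤ, (d : ℚ) * coeff j (h i) = a
  /-- Galochkin's condition: the common denominators of the matrices `G_s / s!` have geometric growth -/
  galochkin : ∃ C : ℝ, ∀ m : ℕ, ∃ d : ℕ, 0 < d ∧ (d : ℝ) ≤ C ^ (m + 1) ∧ ∀ s ≤ m, ∀ i j,
    ∃ H : Polynomial ℤ, (d : Polynomial ℤ) * iter T A s i j = (s.factorial : Polynomial ℤ) * H
  /-- the local exponents at `∞` are rational and the singularity is regular -/
  regular_infty : ∃ d : ℕ, T.natDegree ≤ d ∧ (∀ i j, (A i j).natDegree ≤ d) ∧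
    QuasiUnipotent (Polynomial.X ^ 2 * T.reflect d) (fun i j => - (A i j).reflect d)

theorem iter_eq {r : ℕ} (T : Polynomial ℤ) (A : Fin r → Fin r → Polynomial ℤ) (s : ℕ) :
    iter T A s = Pool.Agent.Y120.GH.itm T A s := by
  induction s with
  | zero => rfl
  | succ s ih =>
    funext i j
    rw [iter, Pool.Agent.Y120.GH.itm, ih]

theorem qu_eq {r : ℕ} {T : Polynomial ℤ} {A : Fin r → Fin r → Polynomial ℤ} (h : QuasiUnipotent T A) :
    Pool.Agent.Y120.GH.QU0 T A := by
  obtain ⟨e, M, K, Φ, he, hdet, hc, heq⟩ := h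
  have he0 : e ≠ 0 := by omega
  refine ⟨e, he0, M, K, Φ, hc, fun i j n => ?_, hdet⟩
  have h1 := heq i j n
  simp only [atPow] at h1
  rw [Pool.Agent.Y120.GH.expand_poly he0]
  simp only [Pool.Agent.Y120.GH.expand_poly he0]
  exact h1

theorem fam {r : ℕ} {T : Polynomial ℤ} {A : Fin r → Fin r → Polynomial ℤ} {h : Fin r → PowerSeries ℚ}
    (hG : GFamily T A h) {b : ℕ} (hb : 2 ≤ b) (δ : ℕ) : Pool.Agent.X120.GS.FamG δ h b := by
  obtain ⟨d, hTd, hAd, hqu⟩ := hG.regular_infty
  obtain ⟨B, a, M, h1, h2, h3⟩ := Pool.Agent.X120.GS.family_mainS hG.T_ne hG.ode hG.size hG.den (by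
    obtain ⟨C, hC⟩ := hG.galochkin
    refine ⟨C, fun m => ?_⟩
    obtain ⟨d, h1, h2, h3⟩ := hC m
    refine ⟨d, h1, h2, fun s hs i' j' => ?_⟩
    rw [← iter_eq]
    exact h3 s hs i' j') hTd hAd (qu_eq hqu) δ
  exact ⟨hG.size, B, a, M, h1, h2, h3 b hb⟩

section family
variable {r n : ℕ}

/-- The period matrix at `x = 1 / s`: the entries are the polynomials `P a b` in the `h_l(1 / s)`. -/
noncomputable def perMat (h : Fin r → PowerSeries ℚ) (P : Fin n → Fin n → MvPolynomial (Fin r) ℂ) (s : ℝ) :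
    Matrix (Fin n) (Fin n) ℂ :=
  Matrix.of fun a b => MvPolynomial.aeval
    (fun l => ((∑' m : ℕ, ((coeff m (h l) : ℚ) : ℝ) * (1 / s) ^ m : ℝ) : ℂ)) (P a b)

/-- the polynomials in more variables -/
noncomputable def more (P : Fin n → Fin n → MvPolynomial (Fin r) ℂ) : Fin n → Fin n → MvPolynomial (Option (Fin r)) ℂ :=
  fun a b => MvPolynomial.rename some (P a b)

theorem perMat_eq (h : Fin r → PowerSeries ℚ) (P : Fin n → Fin n → MvPolynomial (Fin r) ℂ) (s : ℝ) :
    perMat h P s = Pool.Agent.Y120.R.pM h (more P) s := by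
  ext a b
  show MvPolynomial.aeval _ (P a b) = MvPolynomial.aeval _ (MvPolynomial.rename some (P a b))
  rw [MvPolynomial.aeval_rename]
  rfl

/-- the value at `x = 1 / s` and at the matrix `Z` of a polynomial in the entries of a matrix over `ℂ[x]` -/
noncomputable def relAt (R : MvPolynomial (Fin n × Fin n) (Polynomial ℂ)) (s : ℝ) (Z : Matrix (Fin n) (Fin n) ℂ) : ℂ :=
  MvPolynomial.eval₂ (Polynomial.evalRingHom (1 / (s : ℂ))) (fun v => Z v.1 v.2) R

/-- `g P(x)` satisfies all polynomial relations over `ℂ[x]` which `P(x)` satisfies. -/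
def Preserves (h : Fin r → PowerSeries ℚ) (P : Fin n → Fin n → MvPolynomial (Fin r) ℂ)
    (g : Matrix (Fin n) (Fin n) ℂ) : Prop :=
  ∀ R : MvPolynomial (Fin n × Fin n) (Polynomial ℂ), (∀ᶠ s : ℝ in Filter.atTop, relAt R s (perMat h P s) = 0) →
    ∀ᶠ s : ℝ in Filter.atTop, relAt R s (g * perMat h P s) = 0

theorem preserves_iff (h : Fin r → PowerSeries ℚ) (P : Fin n → Fin n → MvPolynomial (Fin r) ℂ)
    (g : Matrix (Fin n) (Fin n) ℂ) : Preserves h P g ↔ Pool.Agent.Y123.GN.Prs h (more P) g := by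
  unfold Preserves Pool.Agent.Y123.GN.Prs
  simp only [perMat_eq]
  exact Iff.rfl

/-- The group of the matrices `g` such that `g` and `g⁻¹` preserve the relations. If `P` is a fundamental matrix of a linear
differential system over `ℂ(x)` this is its differential Galois group. -/
noncomputable def Gal (h : Fin r → PowerSeries ℚ) (P : Fin n → Fin n → MvPolynomial (Fin r) ℂ) :
    Subgroup (Matrix.GeneralLinearGroup (Fin n) ℂ) where
  carrier := {g | Preserves h P (g : Matrix (Fin n) (Fin n) ℂ) ∧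
    Preserves h P ((g⁻¹ : Matrix.GeneralLinearGroup (Fin n) ℂ) : Matrix (Fin n) (Fin n) ℂ)}
  mul_mem' := fun hg hg' => by
    simp only [Set.mem_ofPred_eq, preserves_iff] at hg hg' ⊢
    exact (Pool.Agent.Y123.GN.Gs h (more P)).mul_mem' hg hg'
  one_mem' := by
    simp only [Set.mem_ofPred_eq, preserves_iff]
    exact (Pool.Agent.Y123.GN.Gs h (more P)).one_mem'
  inv_mem' := fun hg => by
    simp only [Set.mem_ofPred_eq, preserves_iff] at hg ⊢
    exact (Pool.Agent.Y123.GN.Gs h (more P)).inv_mem' hg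

theorem gal_eq (h : Fin r → PowerSeries ℚ) (P : Fin n → Fin n → MvPolynomial (Fin r) ℂ) :
    Gal h P = Pool.Agent.Y123.GN.Gs h (more P) := by
  ext g
  show Preserves h P _ ∧ Preserves h P _ ↔ Pool.Agent.Y123.GN.Prs h (more P) _ ∧ Pool.Agent.Y123.GN.Prs h (more P) _
  rw [preserves_iff, preserves_iff]

/-- the nilpotent matrices `N` with `exp (t N) ∈ H` for all `t` -/
def nilpotents (H : Subgroup (Matrix.GeneralLinearGroup (Fin n) ℂ)) : Set (Matrix (Fin n) (Fin n) ℂ) :=
  {N | IsNilpotent N ∧ ∀ t : ℂ, ∃ u ∈ H, (u : Matrix (Fin n) (Fin n) ℂ) = IsNilpotent.exp (t • N)}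

/-- the subgroup generated by all unipotent one-parameter groups in `H` -/
def unipotents (H : Subgroup (Matrix.GeneralLinearGroup (Fin n) ℂ)) : Subgroup (Matrix.GeneralLinearGroup (Fin n) ℂ) :=
  Subgroup.closure {u | ∃ N ∈ nilpotents H, ∃ t : ℂ, (u : Matrix (Fin n) (Fin n) ℂ) = IsNilpotent.exp (t • N)}

/-- the matrices of determinant `1` which respect the form `B`; the special linear group for `B = 0` -/
def special (B : Matrix (Fin n) (Fin n) ℂ) : Subgroup (Matrix.GeneralLinearGroup (Fin n) ℂ) where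
  carrier := {g | (g : Matrix (Fin n) (Fin n) ℂ).det = 1 ∧
    (g : Matrix (Fin n) (Fin n) ℂ) * B * (g : Matrix (Fin n) (Fin n) ℂ)ᵀ = B}
  mul_mem' := fun hg hg' => (Pool.Agent.Y123.GN.GB B).mul_mem' hg hg'
  one_mem' := (Pool.Agent.Y123.GN.GB B).one_mem'
  inv_mem' := fun hg => (Pool.Agent.Y123.GN.GB B).inv_mem' hg

/-- nondegenerate alternating forms -/
def Symplectic (B : Matrix (Fin n) (Fin n) ℂ) : Prop := IsUnit B ∧ Bᵀ = -B

/-- The form is zero, or nondegenerate and alternating, or nondegenerate and symmetric of rank different from `2`. -/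
def Classical (B : Matrix (Fin n) (Fin n) ℂ) : Prop := B = 0 ∨ Symplectic B ∨ (IsUnit B ∧ Bᵀ = B ∧ n ≠ 2)

end family

section
variable {k m : ℕ} {n : Fin k → ℕ} {ρ : Fin k → ℕ}

/-- the entries of the matrices `X_i` and the constants `ξ_j` -/
def entries (X : ∀ i, Matrix (Fin (n i)) (Fin (n i)) ℂ) (ξ : Fin m → ℂ) : (Σ i, Fin (n i) × Fin (n i)) ⊕ Fin m → ℂ :=
  Sum.elim (fun v => X v.1 v.2.1 v.2.2) ξ

/-- The torsor of the `(Y, z)`, `z ≠ 0`, which respect the polarisations `Q_i` (de Rham) and `B_i` (Betti) with values in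
`ℚ(-w_i)`, and the determinants. -/
def torsor (B Q : ∀ i, Matrix (Fin (n i)) (Fin (n i)) ℂ) (w l : Fin k → ℤ) (δ : Fin k → ℂ) :
    Set ((∀ i, Matrix (Fin (n i)) (Fin (n i)) ℂ) × ℂ) :=
  {y | y.2 ≠ 0 ∧ ∀ i, y.1 i * Q i * (y.1 i)ᵀ = y.2 ^ w i • B i ∧ (Symplectic (B i) ∨ (y.1 i).det = δ i * y.2 ^ l i)}

/-- The conclusion for one tuple; `Z i` is the period matrix of the fibre of the `i`-th family. -/
def Good (D d : ℕ) (ξ : Fin m → ℂ) (h : ∀ i, Fin (ρ i) → PowerSeries ℚ)
    (P : ∀ i, Fin (n i) → Fin (n i) → MvPolynomial (Fin (ρ i)) ℂ) (Z : ∀ i, Matrix (Fin (n i)) (Fin (n i)) ℂ) : Prop :=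
  ∀ K : Subfield ℂ, FiniteDimensional ℚ K → Module.finrank ℚ K ≤ D →
  -- 1: all relations are inherited, relative to any constants
  (∀ F : MvPolynomial ((Σ i, Fin (n i) × Fin (n i)) ⊕ Fin m) K, F.totalDegree ≤ d →
    MvPolynomial.aeval (entries Z ξ) F = 0 →
    ∀ g : ∀ i, Matrix.GeneralLinearGroup (Fin (n i)) ℂ, (∀ i, g i ∈ unipotents (Gal (h i) (P i))) →
      MvPolynomial.aeval (entries (fun i => (g i : Matrix (Fin (n i)) (Fin (n i)) ℂ) * Z i) ξ) F = 0) ∧
  -- 2: big monodromy, relative case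
  (∀ B : ∀ i, Matrix (Fin (n i)) (Fin (n i)) ℂ, (∀ i, Classical (B i)) → (∀ i, special (B i) ≤ Gal (h i) (P i)) →
    ∀ (Q : ∀ i, Matrix (Fin (n i)) (Fin (n i)) ℂ) (μ : Fin k → ℂ) (Y : ∀ i, Matrix (Fin (n i)) (Fin (n i)) ℂ),
      (∀ i, μ i ≠ 0 ∧ IsUnit (Z i) ∧ Z i * Q i * (Z i)ᵀ = μ i • B i ∧ Y i * Q i * (Y i)ᵀ = μ i • B i ∧
        (Symplectic (B i) ∨ (Z i).det = (Y i).det)) →
    ∀ F : MvPolynomial ((Σ i, Fin (n i) × Fin (n i)) ⊕ Fin m) K, F.totalDegree ≤ d →
      MvPolynomial.aeval (entries Z ξ) F = 0 → MvPolynomial.aeval (entries Y ξ) F = 0) ∧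
  -- 3: big monodromy, absolute case: the ideal of all relations
  (∀ B : ∀ i, Matrix (Fin (n i)) (Fin (n i)) ℂ, (∀ i, Classical (B i) ∧ IsUnit (B i)) →
    (∀ i, special (B i) ≤ Gal (h i) (P i)) →
    ∀ (Q : ∀ i, Matrix (Fin (n i)) (Fin (n i)) ℂ) (w l : Fin k → ℤ) (δ : Fin k → ℂ),
      (∀ i, (∀ a b, B i a b ∈ K ∧ Q i a b ∈ K) ∧ δ i ∈ K ∧ (Symplectic (B i) ∨ 2 * l i = w i * n i)) →
      (Z, (2 * Real.pi * Complex.I : ℂ)) ∈ torsor B Q w l δ →
    ∀ F : MvPolynomial ((Σ i, Fin (n i) × Fin (n i)) ⊕ Fin 1) K, F.totalDegree ≤ d →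
      (MvPolynomial.aeval (entries Z fun _ => (2 * Real.pi * Complex.I : ℂ)) F = 0 ↔
        ∀ y ∈ torsor B Q w l δ, MvPolynomial.aeval (entries y.1 fun _ => y.2) F = 0))

theorem good_of {D d : ℕ} {ξ : Fin m → ℂ} {h : ∀ i, Fin (ρ i) → PowerSeries ℚ}
    {P : ∀ i, Fin (n i) → Fin (n i) → MvPolynomial (Fin (ρ i)) ℂ} {t : Fin k → ℕ}
    (hg : Pool.Agent.X120.GS.GoodR D d (Matrix.diagonal ξ) h (Pool.Agent.X120.GS.soM P) t)
    (hg' : Pool.Agent.X120.GS.GoodR D d (Matrix.diagonal fun _ : Fin 1 => Pool.Agent.Y123.GN.tpi) h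
      (Pool.Agent.X120.GS.soM P) t) :
    Good D d ξ h P fun i => perMat (h i) (P i) (t i : ℝ) := by
  intro K hKf hKD
  have h1 := hg K hKf hKD
  have h1' := hg' K hKf hKD
  have hGal : ∀ i, Gal (h i) (P i) = Pool.Agent.Y123.GN.Gs (h i) (Pool.Agent.X120.GS.soM P i) := fun i => gal_eq _ _
  have hZ : (fun i => perMat (h i) (P i) (t i : ℝ)) =
      fun i => Pool.Agent.Y120.R.pM (h i) (Pool.Agent.X120.GS.soM P i) (t i : ℝ) := funext fun i => perMat_eq _ _ _
  rw [hZ]
  simp only [hGal]
  have hKalg : ∀ x ∈ K, IsAlgebraic ℚ x := by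
    intro x hx
    have : NumberField K := { to_charZero := inferInstance, to_finiteDimensional := hKf }
    have h6 : IsAlgebraic ℚ (⟨x, hx⟩ : K) := Algebra.IsAlgebraic.isAlgebraic _
    exact h6.algebraMap (A := ℂ)
  have hUg : ∀ {i : Fin k} {B : Matrix (Fin (n i)) (Fin (n i)) ℂ}, Classical B →
      special B ≤ Pool.Agent.Y123.GN.Gs (h i) (Pool.Agent.X120.GS.soM P i) →
      Pool.Agent.Y123.GN.GB B ≤ Pool.Agent.Y123.GN.Ug (Pool.Agent.Y123.GN.Gs (h i) (Pool.Agent.X120.GS.soM P i)) := by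
    intro i B hB hBG g hgB
    have h2 : (⁅Pool.Agent.Y123.GN.Ug (Pool.Agent.Y123.GN.Gs (h i) (Pool.Agent.X120.GS.soM P i)),
        Pool.Agent.Y123.GN.Ug (Pool.Agent.Y123.GN.Gs (h i) (Pool.Agent.X120.GS.soM P i))⁆ : Subgroup _) ≤
        Pool.Agent.Y123.GN.Ug (Pool.Agent.Y123.GN.Gs (h i) (Pool.Agent.X120.GS.soM P i)) := by
      rw [Subgroup.commutator_le]
      intro a ha b hb
      exact Subgroup.mul_mem _ (Subgroup.mul_mem _ (Subgroup.mul_mem _ ha hb) (Subgroup.inv_mem _ ha)) (Subgroup.inv_mem _ hb)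
    exact h2 (Pool.Agent.Y123.GN.mono_comm hBG (Pool.Agent.Y123.GN.cl_perf hB) hgB)
  refine ⟨?_, ?_, ?_⟩
  · intro F hF h0 g hgm
    exact Pool.Agent.X120.GS.rel_vals (h1 g hgm) hF h0
  · intro B hB hBG Q μ Y hY F hF h0
    have hst : ∀ g : ∀ i, (Matrix (Fin (n i)) (Fin (n i)) ℂ)ˣ, (∀ i, g i ∈ Pool.Agent.Y123.GN.GB (B i)) →
        ∀ i, g i ∈ Pool.Agent.Y123.GN.Ug (Pool.Agent.Y123.GN.Gs (h i) (Pool.Agent.X120.GS.soM P i)) :=
      fun g hgB i => hUg (hB i) (hBG i) (hgB i)
    have k1 : ∀ i, μ i ≠ 0 := fun i => (hY i).1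
    have k2 : ∀ i, IsUnit (Pool.Agent.Y120.R.pM (h i) (Pool.Agent.X120.GS.soM P i) (t i : ℝ)) := fun i => (hY i).2.1
    have k3 := fun i => (hY i).2.2.1
    have k4 := fun i => (hY i).2.2.2.1
    have k5 := fun i => (hY i).2.2.2.2
    have h5 : ∀ g : ∀ i, (Matrix (Fin (n i)) (Fin (n i)) ℂ)ˣ, (∀ i, g i ∈ Pool.Agent.Y123.GN.GB (B i)) →
        Pool.Agent.Y123.GN.Rl K d
          (Pool.Agent.Y123.GN.EG (Matrix.diagonal ξ) fun i => Pool.Agent.Y120.R.pM (h i) (Pool.Agent.X120.GS.soM P i) (t i : ℝ))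
          (Pool.Agent.Y123.GN.EG 1 (fun i => (g i : Matrix (Fin (n i)) (Fin (n i)) ℂ)) *
            Pool.Agent.Y123.GN.EG (Matrix.diagonal ξ) fun i =>
              Pool.Agent.Y120.R.pM (h i) (Pool.Agent.X120.GS.soM P i) (t i : ℝ)) :=
      fun g hgB => h1 g (hst g hgB)
    exact Pool.Agent.X120.GS.rel_forms (ξ := ξ) (K := K) (d := d) (X := fun i => Pool.Agent.Y120.R.pM (h i) (Pool.Agent.X120.GS.soM P i) (t i : ℝ))
      (Q := Q) (B := B) (μ := μ) h5 k1 k2 k3 k4 k5 hF h0
  · intro B hB hBG Q w l δ hK hmem F hF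
    refine ⟨fun h0 => ?_, fun h0 => ?_⟩
    swap
    · have h6 := h0 _ hmem
      exact h6
    have hst : ∀ g : ∀ i, (Matrix (Fin (n i)) (Fin (n i)) ℂ)ˣ, (∀ i, g i ∈ Pool.Agent.Y123.GN.GB (B i)) →
        ∀ i, g i ∈ Pool.Agent.Y123.GN.Ug (Pool.Agent.Y123.GN.Gs (h i) (Pool.Agent.X120.GS.soM P i)) :=
      fun g hgB i => hUg (hB i).1 (hBG i) (hgB i)
    exact Pool.Agent.X120.GS.rel_abs (X := fun i => Pool.Agent.Y120.R.pM (h i) (Pool.Agent.X120.GS.soM P i) (t i : ℝ))
      (Q := Q) (B := B) (w := w) (l := l) (δ := δ) hKalg (fun i => (hB i).2) (fun i a b => ((hK i).1 a b).1) (fun i a b => ((hK i).1 a b).2)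
      (fun i => (hK i).2.1) (fun i => (hK i).2.2) (fun g hgB => h1' g (hst g hgB)) hmem hF h0

end

/-- **The theorem.** `P i` is the period matrix of the `i`-th family, `b i ≥ 2` and `x i = b i ^ (- t i)`. -/
theorem result (k e : ℕ) (ρ n : Fin k → ℕ) (T : Fin k → Polynomial ℤ)
    (A : ∀ i, Fin (ρ i) → Fin (ρ i) → Polynomial ℤ) (h : ∀ i, Fin (ρ i) → PowerSeries ℚ)
    (hG : ∀ i, GFamily (T i) (A i) (h i)) (b : Fin k → ℕ) (hb : ∀ i, 2 ≤ b i) :
    -- number fields of degree at most `D`, relations of degree at most `d`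
    (∀ D d m : ℕ, ∃ C : ℝ, 0 ≤ C ∧ ∀ P : ∀ i, Fin (n i) → Fin (n i) → MvPolynomial (Fin (ρ i)) ℂ,
      (∀ i a b, (P i a b).totalDegree ≤ e) → ∀ ξ : Fin m → ℂ, ∀ N : ℕ, 2 ≤ N →
      (({t : Fin k → ℕ | (∀ i, 1 ≤ t i ∧ t i ≤ N) ∧
        ¬ Good D d ξ h P fun i => perMat (h i) (P i) ((b i : ℝ) ^ t i)}.ncard : ℕ) : ℝ) * N ≤
        C * (N : ℝ) ^ k * Real.log N) ∧
    -- all degrees and numbers at most `M N`, which tends to infinity
    (∃ (M : ℕ → ℕ) (ε : ℕ → ℝ), Tendsto M atTop atTop ∧ Tendsto ε atTop (nhds 0) ∧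
      ∀ P : ∀ i, Fin (n i) → Fin (n i) → MvPolynomial (Fin (ρ i)) ℂ,
      (∀ i a b, (P i a b).totalDegree ≤ e) → ∀ N : ℕ, 2 ≤ N → ∀ ξ : Fin (M N) → ℂ,
      (({t : Fin k → ℕ | (∀ i, 1 ≤ t i ∧ t i ≤ N) ∧
        ¬ Good (M N) (M N) ξ h P fun i => perMat (h i) (P i) ((b i : ℝ) ^ t i)}.ncard : ℕ) : ℝ) ≤ ε N * (N : ℝ) ^ k) := by
  classical
  have hmain : ∀ D d m : ℕ, ∃ C : ℝ, 0 ≤ C ∧ ∀ P : ∀ i, Fin (n i) → Fin (n i) → MvPolynomial (Fin (ρ i)) ℂ,
      (∀ i a b, (P i a b).totalDegree ≤ e) → ∀ ξ : Fin m → ℂ, ∀ N : ℕ, 2 ≤ N →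
      (({t : Fin k → ℕ | (∀ i, 1 ≤ t i ∧ t i ≤ N) ∧
        ¬ Good D d ξ h P fun i => perMat (h i) (P i) ((b i : ℝ) ^ t i)}.ncard : ℕ) : ℝ) * N ≤
        C * (N : ℝ) ^ k * Real.log N := by
    intro D d m
    obtain ⟨C, hC, hmain⟩ := Pool.Agent.X120.GS.rel_allS k D d e m ρ n h hb fun i δ => fam (hG i) (hb i) δ
    obtain ⟨C', hC', hmain'⟩ := Pool.Agent.X120.GS.rel_allS k D d e 1 ρ n h hb fun i δ => fam (hG i) (hb i) δ
    refine ⟨C + C', add_nonneg hC hC', ?_⟩
    intro P hP ξ N hN
    set E := {t : Fin k → ℕ | (∀ i, 1 ≤ t i ∧ t i ≤ N) ∧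
        ¬ Good D d ξ h P fun i => perMat (h i) (P i) ((b i : ℝ) ^ t i)} with hE
    have hfin : E.Finite := by
      refine (Set.finite_Iic (fun _ : Fin k => N)).subset ?_
      intro t ht i
      exact (ht.1 i).2
    rw [Set.ncard_eq_toFinset_card E hfin]
    set S := hfin.toFinset with hS
    set S₁ := S.filter fun t => ¬ Pool.Agent.X120.GS.GoodR D d (Matrix.diagonal ξ) h (Pool.Agent.X120.GS.soM P)
      (Pool.Agent.X120.GS.tp b t) with hS₁
    set S₂ := S.filter fun t => ¬ Pool.Agent.X120.GS.GoodR D d (Matrix.diagonal fun _ : Fin 1 => Pool.Agent.Y123.GN.tpi) h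
      (Pool.Agent.X120.GS.soM P) (Pool.Agent.X120.GS.tp b t) with hS₂
    have hcov : S ⊆ S₁ ∪ S₂ := by
      intro t ht
      by_contra hnot
      rw [Finset.mem_union, not_or] at hnot
      have h1 : Pool.Agent.X120.GS.GoodR D d (Matrix.diagonal ξ) h (Pool.Agent.X120.GS.soM P)
          (Pool.Agent.X120.GS.tp b t) := by
        by_contra hc
        exact hnot.1 (Finset.mem_filter.2 ⟨ht, hc⟩)
      have h2 : Pool.Agent.X120.GS.GoodR D d (Matrix.diagonal fun _ : Fin 1 => Pool.Agent.Y123.GN.tpi) h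
          (Pool.Agent.X120.GS.soM P) (Pool.Agent.X120.GS.tp b t) := by
        by_contra hc
        exact hnot.2 (Finset.mem_filter.2 ⟨ht, hc⟩)
      have h3 := good_of h1 h2
      have h4 : (fun i => perMat (h i) (P i) ((Pool.Agent.X120.GS.tp b t i : ℕ) : ℝ)) =
          fun i => perMat (h i) (P i) ((b i : ℝ) ^ t i) := by
        funext i
        have h5 : ((Pool.Agent.X120.GS.tp b t i : ℕ) : ℝ) = (b i : ℝ) ^ t i := by
          unfold Pool.Agent.X120.GS.tp
          push_cast
          rfl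
        rw [h5]
      rw [h4] at h3
      exact (hfin.mem_toFinset.1 ht).2 h3
    have hc₁ := hmain P hP (Matrix.diagonal ξ) N hN S₁ fun t ht =>
      ⟨(hfin.mem_toFinset.1 (Finset.mem_filter.1 ht).1).1, (Finset.mem_filter.1 ht).2⟩
    have hc₂ := hmain' P hP (Matrix.diagonal fun _ : Fin 1 => Pool.Agent.Y123.GN.tpi) N hN S₂ fun t ht =>
      ⟨(hfin.mem_toFinset.1 (Finset.mem_filter.1 ht).1).1, (Finset.mem_filter.1 ht).2⟩
    have hle : (S.card : ℝ) ≤ S₁.card + S₂.card := by
      exact_mod_cast (Finset.card_le_card hcov).trans (Finset.card_union_le _ _)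
    calc (S.card : ℝ) * N ≤ (S₁.card + S₂.card) * N := mul_le_mul_of_nonneg_right hle (Nat.cast_nonneg _)
      _ = S₁.card * N + S₂.card * N := by ring
      _ ≤ C * (N : ℝ) ^ k * Real.log N + C' * (N : ℝ) ^ k * Real.log N := add_le_add hc₁ hc₂
      _ = _ := by ring
  refine ⟨hmain, ?_⟩
  choose C hC hcount using hmain
  obtain ⟨D, hD, hδ⟩ := Pool.Agent.Y123.GN.diag_seq (fun D N => C D D D * (Real.log N / N)) (by
      intro D
      have h1 : Tendsto (fun N : ℕ => Real.log N / N) atTop (nhds 0) :=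
        (Real.isLittleO_log_id_atTop.tendsto_div_nhds_zero).comp tendsto_natCast_atTop_atTop
      have h5 := h1.const_mul (C D D D)
      rw [mul_zero] at h5
      exact h5)
  refine ⟨D, _, hD, hδ, ?_⟩
  intro P hP N hN ξ
  have h1 := hcount (D N) (D N) (D N) P hP ξ N hN
  have hN0 : (0 : ℝ) < N := by
    have : 0 < N := by omega
    exact_mod_cast this
  rw [← le_div_iff₀ hN0] at h1
  refine h1.trans (le_of_eq ?_)
  ring

end Pool.Agent.Results.MP_cbf1af_ag.GeometricSequencesAllFields
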