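import Pool.Agent.X120.GS.Fpg

/-!
# Torsors of periods of hypergeometric motives at the points `b^(-n)`

Let `β_(i,1), …, β_(i,m_i)` be rational numbers which are not integers and `θ = z d/dz`. The hypergeometric operator
`θ^(2 m_i) - z ∏_j (θ - β_(i,j)) (θ + β_(i,j))` has maximally unipotent monodromy at `z = 0`. For `m_i = 1` its solutions are periods of families
of elliptic curves, for `m_i = 2` it is contiguous to the operators of the families of Calabi-Yau threefolds like the mirror quintic. The period matrix of the fibre at `z` is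
`(Y_i(z) Ω_i)ᵀ` (rows: Betti side, columns: de Rham side), where `Y_i(z)` is the matrix of the `(θ^a f_b)(z)`, `f_b` the Frobenius basis (with the powers
of `log z`), and `Ω_i` is an invertible matrix of constants, the periods of the limit motive. We consider every invertible complex matrix `Ω_i`, and write `M_(i,z)`
for the de Rham-Betti object with this period matrix. Let `b_i ≥ 2` be integers.

Let `K` be a number field and `M_0` any de Rham-Betti object over `K`, for example the realisation of any (pure or mixed) motive over `K`, like the Kummer motives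
`K(b_i)` with the periods `log b_i` and `2πi`, and let
`M = M_0 ⊕ ℚ(-1) ⊕ M_(1, z_1) ⊕ … ⊕ M_(k, z_k)`, `z_i = b_i^(-t_i)`.

**Theorem.** Given `D` and `r`, for all but `C N^(k-1) log N` of the tuples `(t_1, …, t_k)` in `[1, N]^k` (for `k = 1` for all but `C log N` of the first `N` fibres), where `C`
depends only on the `β_i`, the `b_i`, `D` and `r`, for all number fields `K` of degree at most `D` at once and for every `M_0` of rank at most `r` and all `Ω_i` the following holds.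

1. Every `K`-subtorsor of `Iso(M_dR, M_B)`, of any degree, which contains the period matrix is stable under `∏_i Sp(P_i)`, where
`P_i = Ω_iᵀ J_i Ω_i` is the form of `M_(i,z)` on the Betti side.

2. If `P_i = (2πi)^(w_i) B_i` with a matrix `B_i` over `K` (this is the case if `M_(i,z)` is the realisation of a motive
with a polarisation with values in `ℚ(-w_i)`), then every `K`-subtorsor which contains the period matrix and respects the
decomposition and the polarisations is the fibre product of its projection `T_0` to `M_0 ⊕ ℚ(-1)`, which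
is a `K`-subtorsor, with the torsor of all `X_i` with `X_i J_i X_iᵀ = μ^(w_i) B_i` for `x_0 ⊕ μ ∈ T_0`.

3. The smallest `K`-subtorsor which contains the period matrix is such a fibre product, with `T_0` the smallest
`K`-subtorsor which contains the period matrix of `M_0 ⊕ ℚ(-1)`; and for `M_0 = 0` the latter is the multiplicative group.

So for `M_0 = 0` the smallest `K`-subtorsor which contains the period matrix is the torsor predicted by the period conjecture, under the group of all `(μ, g_i)`, `g_i ∈ GSp` with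
multiplier `μ^(w_i)`, and for every motive `M_0` the statement that the smallest `K`-subtorsor
is the torsor of motivic periods, for `M`, is equivalent to the same statement for `M_0 ⊕ ℚ(-1)`. There are also `M(N) → ∞` and `ε(N) → 0` such that for all but
`ε(N) N^k` tuples in `[1, N]^k` this holds for all number fields of degree at most `M(N)` and all `M_0` of rank at most `M(N)`.

The results for these families which were known (`MP_cbf1af_ag.HypergeometricTorsors`) are about `z_i = 1 / s_i` for almost all integral tuples `s` in boxes; the exceptional sets in `[1, X]` are only known to have at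
most `X^(1-c)` elements, and there are only `log X` powers of `b` in `[1, X]`, so nothing was known for `z = b^(-t)`. The general theorems on geometric sequences
(`MP_12eca1_ag.DegenerateFibres`, `MP_cbf1af_ag.GeometricSequencesAllFields`) are about relations of bounded degree and assume a regular singularity with rational exponents at infinity.

Proof. The local system of the entries of the period matrix (without the logarithms) has a regular singularity with exponents in `ℚ` at `z = ∞`: we prove the theorem of Frobenius and Fuchs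
for systems `z y' = B(z) y` such that all eigenvalues of `B(0)` are rational (`Pool.Agent.X120.GS.Frb`); at `z = ∞` the eigenvalues of the hypergeometric system are the `±β_(i,j)`. So the
counting theorem on geometric sequences (`Pool.Agent.X120.GS`) can be applied to the relations with coefficients in spaces of bounded dimension, for which `log z_i = - t_i log b_i` is a constant up to a rational factor. The
relations between the functions (helper119, `Pool.Agent.Y119.HY`) are those of the symplectic forms, hence the relations at `z_i` are stable under the symplectic groups, and the criterion for subtorsors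
(`Pool.Agent.Y123.GN`) applies. The projection is closed because of a Lagrangian section, and defined over `K` by descent.
-/

set_option autoImplicit false

open PowerSeries Matrix Filter

namespace Pool.Agent.Results.MP_cbf1af_ag.HypergeometricTorsorsAtPowers

/-- `T` is (the set of complex points of) a `K`-subtorsor of `GL_B = Iso (M_dR, M_B)`: it is closed under `x y⁻¹ z`, and
it is defined in `GL_B` by polynomials with coefficients in `K`. -/
def IsSubtorsor (K : Subfield ℂ) {B : Type} [Fintype B] [DecidableEq B] (T : Set (Matrix B B ℂ)) : Prop :=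
  (∀ x ∈ T, ∀ y ∈ T, ∀ z ∈ T, x * y⁻¹ * z ∈ T) ∧ ∃ I : Set (MvPolynomial (B × B) K), ∀ x : Matrix B B ℂ, x ∈ T ↔
    IsUnit x ∧ ∀ p ∈ I, MvPolynomial.eval (fun b => x b.1 b.2) (MvPolynomial.map (algebraMap K ℂ) p) = 0

/-- `Ω` is the smallest `K`-subtorsor which contains the period matrix `c` -/
def IsOmega (K : Subfield ℂ) {B : Type} [Fintype B] [DecidableEq B] (c : Matrix B B ℂ) (Ω : Set (Matrix B B ℂ)) : Prop :=
  IsSubtorsor K Ω ∧ c ∈ Ω ∧ ∀ T : Set (Matrix B B ℂ), IsSubtorsor K T → c ∈ T → Ω ⊆ T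

/-- the power series `k + ε` in the variable `ε` -/
noncomputable def shift (k : ℕ) : PowerSeries ℚ := C (k : ℚ) + X

/-- `a_k(ε) = ∏_{l < k} ∏_j ((l + ε)^2 - β_j^2) / (l + 1 + ε)^(2m)`. The series `∑_k a_k(ε) z^(k + ε)` solves the
equation `(θ^n - z ∏_j (θ^2 - β_j^2)) f = ε^n z^ε`, hence its coefficients `f_j` at `ε^j` with `j < n = 2m` are
solutions of the homogeneous equation. -/
noncomputable def frob {m : ℕ} (β : Fin m → ℚ) (k : ℕ) : PowerSeries ℚ :=
  ∏ l ∈ Finset.range k, ((∏ j, (shift l ^ 2 - C (β j ^ 2))) * ((shift (l + 1))⁻¹) ^ (2 * m))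

/-- The matrix with the entries `(θ^i f_j)(1 / t)`, where `f_j(z)` is the coefficient of `ε^j` in the series
`∑_k a_k(ε) z^(k + ε)`, `z^ε = ∑_l (log z)^l ε^l / l!`. -/
noncomputable def Y {m : ℕ} (β : Fin m → ℚ) (t : ℕ) : Matrix (Fin (2 * m)) (Fin (2 * m)) ℂ :=
  Matrix.of fun i j => ∑ l ∈ Finset.range ((j : ℕ) + 1), ((Real.log (1 / t) ^ l / l.factorial : ℝ) : ℂ) *
    ∑' k : ℕ, ((coeff ((j : ℕ) - l) (shift k ^ (i : ℕ) * frob β k) : ℚ) : ℂ) * (1 / (t : ℂ)) ^ k

/-- the polynomial `∏_j (x^2 - β_j^2)` -/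
noncomputable def poly {m : ℕ} (β : Fin m → ℚ) : Polynomial ℚ := ∏ j, (Polynomial.X ^ 2 - Polynomial.C (β j ^ 2))

/-- The matrix of the intersection form: the entry `(i, j)` is `(-1)^i q_{i+j+1-n}` for `i + j + 1 ≥ n` and `0`
otherwise, where `q_l` are the coefficients of `∏_j (x^2 - β_j^2)`. -/
noncomputable def J {m : ℕ} (β : Fin m → ℚ) : Matrix (Fin (2 * m)) (Fin (2 * m)) ℂ :=
  Matrix.of fun i j => if 2 * m ≤ (i : ℕ) + j + 1 then (((-1) ^ (i : ℕ) * (poly β).coeff (i + j + 1 - 2 * m) : ℚ) : ℂ) else 0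

/-- the form on the Betti side -/
noncomputable def pairing {m : ℕ} (β : Fin m → ℚ) (Ω : Matrix (Fin (2 * m)) (Fin (2 * m)) ℂ) :
    Matrix (Fin (2 * m)) (Fin (2 * m)) ℂ := Ωᵀ * J β * Ω

/-- the number `2πi` -/
noncomputable def twoPiI : ℂ := 2 * Real.pi * Complex.I

/-- the block matrix `x ⊕ μ`; for a period matrix `x` of `M_0` and `μ = 2πi` the period matrix of `M_0 ⊕ ℚ(-1)` -/
def withTate {r : ℕ} (x : Matrix (Fin r) (Fin r) ℂ) (μ : ℂ) : Matrix (Fin r ⊕ Unit) (Fin r ⊕ Unit) ℂ :=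
  Matrix.fromBlocks x 0 0 (Matrix.of fun _ _ => μ)

/-- the index set of the bases of `M_0 ⊕ ℚ(-1) ⊕ ⨁_i M_(i,z_i)` -/
abbrev Index (r : ℕ) {k : ℕ} (m : Fin k → ℕ) : Type := (Fin r ⊕ Unit) ⊕ (Σ i : Fin k, Fin (2 * m i))

/-- the block matrix `x ⊕ μ ⊕ ⨁_i X_i` -/
noncomputable def total {r k : ℕ} {m : Fin k → ℕ} (x : Matrix (Fin r) (Fin r) ℂ) (μ : ℂ)
    (X : ∀ i, Matrix (Fin (2 * m i)) (Fin (2 * m i)) ℂ) : Matrix (Index r m) (Index r m) ℂ :=
  Matrix.fromBlocks (withTate x μ) 0 0 (Matrix.blockDiagonal' X)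

/-- the period matrix of `M_0 ⊕ ℚ(-1) ⊕ ⨁_i M_(i, 1/s_i)` -/
noncomputable def periodMatrix {r k : ℕ} {m : Fin k → ℕ} (C₀ : Matrix (Fin r) (Fin r) ℂ) (β : ∀ i, Fin (m i) → ℚ)
    (Ω : ∀ i, Matrix (Fin (2 * m i)) (Fin (2 * m i)) ℂ) (s : Fin k → ℕ) : Matrix (Index r m) (Index r m) ℂ :=
  total C₀ twoPiI fun i => (Y (β i) (s i) * Ω i)ᵀ

/-- 1: all `K`-subtorsors which contain the period matrix are stable under the group of all
`1 ⊕ ⨁_i g_i` such that `g_i` is an isometry of the form on the Betti side -/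
def Stable (K : Subfield ℂ) {r k : ℕ} {m : Fin k → ℕ} (C₀ : Matrix (Fin r) (Fin r) ℂ) (β : ∀ i, Fin (m i) → ℚ)
    (Ω : ∀ i, Matrix (Fin (2 * m i)) (Fin (2 * m i)) ℂ) (s : Fin k → ℕ) : Prop :=
  ∀ T : Set (Matrix (Index r m) (Index r m) ℂ), IsSubtorsor K T → periodMatrix C₀ β Ω s ∈ T →
    ∀ g : ∀ i, Matrix (Fin (2 * m i)) (Fin (2 * m i)) ℂ,
      (∀ i, g i * pairing (β i) (Ω i) * (g i)ᵀ = pairing (β i) (Ω i)) → ∀ x ∈ T, total 1 1 g * x ∈ T

/-- `(X_i)` respects the polarisations, with multiplier `μ` -/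
def Respects {k : ℕ} {m : Fin k → ℕ} (β : ∀ i, Fin (m i) → ℚ) (w : Fin k → ℕ)
    (B : ∀ i, Matrix (Fin (2 * m i)) (Fin (2 * m i)) ℂ) (X : ∀ i, Matrix (Fin (2 * m i)) (Fin (2 * m i)) ℂ) (μ : ℂ) : Prop :=
  ∀ i, X i * J (β i) * (X i)ᵀ = μ ^ w i • B i

/-- the matrices which respect the decomposition and the polarisations -/
def respecting {r k : ℕ} {m : Fin k → ℕ} (β : ∀ i, Fin (m i) → ℚ) (w : Fin k → ℕ)
    (B : ∀ i, Matrix (Fin (2 * m i)) (Fin (2 * m i)) ℂ) : Set (Matrix (Index r m) (Index r m) ℂ) :=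
  {y | ∃ (x : Matrix (Fin r) (Fin r) ℂ) (μ : ℂ) (X : ∀ i, Matrix (Fin (2 * m i)) (Fin (2 * m i)) ℂ),
    Respects β w B X μ ∧ y = total x μ X}

/-- the fibre product: the matrices `x ⊕ μ ⊕ ⨁_i X_i` such that `x ⊕ μ` is in `T₀` and `(X_i)` respects
the polarisations with the multiplier `μ` -/
def fibreProduct {r k : ℕ} {m : Fin k → ℕ} (β : ∀ i, Fin (m i) → ℚ) (w : Fin k → ℕ)
    (B : ∀ i, Matrix (Fin (2 * m i)) (Fin (2 * m i)) ℂ) (T₀ : Set (Matrix (Fin r ⊕ Unit) (Fin r ⊕ Unit) ℂ)) :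
    Set (Matrix (Index r m) (Index r m) ℂ) :=
  {y | ∃ (x : Matrix (Fin r) (Fin r) ℂ) (μ : ℂ) (X : ∀ i, Matrix (Fin (2 * m i)) (Fin (2 * m i)) ℂ),
    withTate x μ ∈ T₀ ∧ Respects β w B X μ ∧ y = total x μ X}

/-- the projection to `M_0 ⊕ ℚ(-1)` -/
def proj {r k : ℕ} {m : Fin k → ℕ} (T : Set (Matrix (Index r m) (Index r m) ℂ)) :
    Set (Matrix (Fin r ⊕ Unit) (Fin r ⊕ Unit) ℂ) :=
  {v | ∃ (x : Matrix (Fin r) (Fin r) ℂ) (μ : ℂ) (X : ∀ i, Matrix (Fin (2 * m i)) (Fin (2 * m i)) ℂ),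
    v = withTate x μ ∧ total x μ X ∈ T}

/-- 2 and 3: if the form on the Betti side is `(2πi)^(w_i)` times a matrix over `K`, then all `K`-subtorsors which contain
the period matrix and respect the decomposition and the polarisations are fibre products, and the
smallest `K`-subtorsor is the fibre product with the smallest `K`-subtorsor for `M_0 ⊕ ℚ(-1)`, which for `M_0 = 0` is the
whole multiplicative group -/
def FibreProducts (K : Subfield ℂ) {r k : ℕ} {m : Fin k → ℕ} (C₀ : Matrix (Fin r) (Fin r) ℂ) (β : ∀ i, Fin (m i) → ℚ)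
    (Ω : ∀ i, Matrix (Fin (2 * m i)) (Fin (2 * m i)) ℂ) (s : Fin k → ℕ) : Prop :=
  ∀ (w : Fin k → ℕ) (B : ∀ i, Matrix (Fin (2 * m i)) (Fin (2 * m i)) ℂ), (∀ i a b, B i a b ∈ K) →
    (∀ i, pairing (β i) (Ω i) = twoPiI ^ w i • B i) →
    (∀ T : Set (Matrix (Index r m) (Index r m) ℂ), IsSubtorsor K T → periodMatrix C₀ β Ω s ∈ T →
      T ⊆ respecting β w B → IsSubtorsor K (proj T) ∧ T = fibreProduct β w B (proj T)) ∧
    ∃ Ω₀, IsOmega K (withTate C₀ twoPiI) Ω₀ ∧ (r = 0 → Ω₀ = {x | IsUnit x}) ∧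
      IsOmega K (periodMatrix C₀ β Ω s) (fibreProduct β w B Ω₀)

/-- the conclusion for all number fields of degree at most `D` at once -/
def Good (D : ℕ) {r k : ℕ} {m : Fin k → ℕ} (C₀ : Matrix (Fin r) (Fin r) ℂ) (β : ∀ i, Fin (m i) → ℚ)
    (Ω : ∀ i, Matrix (Fin (2 * m i)) (Fin (2 * m i)) ℂ) (s : Fin k → ℕ) : Prop :=
  ∀ K : Subfield ℂ, FiniteDimensional ℚ K → Module.finrank ℚ K ≤ D → Stable K C₀ β Ω s ∧ FibreProducts K C₀ β Ω s

theorem shift_eq (k : ℕ) : shift k = Pool.Agent.Y119.HY.kx k := rfl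

theorem frob_eq {m : ℕ} (β : Fin m → ℚ) (k : ℕ) : frob β k = Pool.Agent.Y119.HY.aq (2 * m) (Pool.Agent.Y119.HY.QB β) k := by
  unfold frob Pool.Agent.Y119.HY.aq
  refine Finset.prod_congr rfl fun l _ => ?_
  congr 1
  unfold Pool.Agent.Y119.HY.QB
  rw [map_prod]
  refine Finset.prod_congr rfl fun j _ => ?_
  simp only [map_sub, map_pow, Polynomial.aeval_X, Polynomial.aeval_C]
  rfl

theorem J_eq {m : ℕ} (β : Fin m → ℚ) :
    J β = Pool.Agent.Y119.HY.cm (Pool.Agent.Y119.HY.Jm (2 * m) (Pool.Agent.Y119.HY.QB β)) := by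
  ext i j
  rw [Pool.Agent.Y119.HY.cm_apply]
  unfold J Pool.Agent.Y119.HY.Jm
  rw [Matrix.of_apply, Matrix.of_apply]
  split_ifs
  · rfl
  · simp

theorem Y_eq {m : ℕ} (β : Fin m → ℚ) (t : ℕ) :
    Y β t = Pool.Agent.Y119.HZ.Yt (2 * m) (Pool.Agent.Y119.HY.QB β) t := by
  ext i j
  unfold Y Pool.Agent.Y119.HZ.Yt
  rw [Matrix.of_apply, Matrix.mul_apply]
  have hE : ∀ c : Fin (2 * m), Pool.Agent.Y119.HY.E (Pool.Agent.Y119.HY.cm (Pool.Agent.Y119.HY.Am (2 * m)))
      (-((Real.log t : ℝ) : ℂ)) c j = ∑ l ∈ Finset.range (2 * m),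
        if (j : ℕ) = c + l then ((Real.log (1 / t) ^ l / l.factorial : ℝ) : ℂ) else 0 := by
    intro c
    unfold Pool.Agent.Y119.HY.E
    rw [Matrix.sum_apply]
    refine Finset.sum_congr rfl fun l _ => ?_
    rw [Matrix.smul_apply, ← Pool.Agent.Y119.HY.cm_pow, Pool.Agent.Y119.HY.cm_apply, Pool.Agent.Y119.HY.Am_pow, smul_eq_mul,
      one_div, Real.log_inv]
    split_ifs
    · push_cast
      ring
    · simp
  simp only [hE, Finset.mul_sum]
  rw [Finset.sum_comm]
  have hsub : Finset.range ((j : ℕ) + 1) ⊆ Finset.range (2 * m) := by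
    intro l hl
    rw [Finset.mem_range] at hl ⊢
    have := j.2
    omega
  refine Finset.sum_subset_zero_on_sdiff hsub (fun l hl => ?_) fun l hl => ?_
  · rw [Finset.mem_sdiff, Finset.mem_range, Finset.mem_range] at hl
    refine Finset.sum_eq_zero fun c _ => ?_
    rw [if_neg (by omega), mul_zero]
  · rw [Finset.mem_range] at hl
    have hj := j.2
    rw [Finset.sum_eq_single (⟨(j : ℕ) - l, by omega⟩ : Fin (2 * m))]
    · rw [if_pos (by simp only; omega), mul_comm]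
      congr 1
      unfold Pool.Agent.Y119.HY.Hf Pool.Agent.Y119.HY.ps
      rw [Matrix.of_apply]
      refine tsum_congr fun k => ?_
      show _ = ((Pool.Agent.Y119.HY.hq (2 * m) (Pool.Agent.Y119.HY.QB β) k i ((j : ℕ) - l) : ℚ) : ℂ) *
        (((1 / (t : ℝ) : ℝ)) : ℂ) ^ k
      rw [frob_eq, shift_eq]
      unfold Pool.Agent.Y119.HY.hq
      push_cast
      rfl
    · intro c _ hc
      rw [if_neg, mul_zero]
      intro h
      apply hc
      apply Fin.ext
      simp only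
      omega
    · intro h
      exact absurd (Finset.mem_univ _) h

theorem withTate_unit {r : ℕ} {x : Matrix (Fin r) (Fin r) ℂ} (hx : IsUnit x) {μ : ℂ} (hμ : μ ≠ 0) :
    IsUnit (withTate x μ) := by
  rw [Matrix.isUnit_iff_isUnit_det] at hx ⊢
  have h1 : (Matrix.of fun _ _ => μ : Matrix Unit Unit ℂ).det = μ := by
    rw [Matrix.det_unique]
    rfl
  unfold withTate
  rw [Matrix.det_fromBlocks_zero₂₁, h1]
  exact hx.mul (isUnit_iff_ne_zero.2 hμ)

theorem withTate_one {r : ℕ} : withTate (1 : Matrix (Fin r) (Fin r) ℂ) 1 = 1 := by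
  unfold withTate
  have h1 : (Matrix.of fun _ _ => (1 : ℂ) : Matrix Unit Unit ℂ) = 1 := by
    ext i j
    simp
  rw [h1, fromBlocks_one]

theorem cm_withTate {r : ℕ} (x : Matrix (Fin r) (Fin r) ℂ) (μ : ℂ) :
    Pool.Agent.Y123.SR.Cm (Sum.inr ()) (withTate x μ) := by
  rintro (k | ⟨⟩) hk
  · exact ⟨rfl, rfl⟩
  · exact absurd rfl hk

theorem eq_withTate {r : ℕ} {x : Matrix (Fin r ⊕ Unit) (Fin r ⊕ Unit) ℂ}
    (h2 : Pool.Agent.Y123.SR.Cm (Sum.inr ()) x) :
    x = withTate (Matrix.of fun i j => x (Sum.inl i) (Sum.inl j)) (x (Sum.inr ()) (Sum.inr ())) := by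
  ext i j
  rcases i with i | ⟨⟩
  · rcases j with j | ⟨⟩
    · rfl
    · exact (h2 (Sum.inl i) (by simp)).2
  · rcases j with j | ⟨⟩
    · exact (h2 (Sum.inl j) (by simp)).1
    · rfl

section
variable {r k : ℕ} {m : Fin k → ℕ} {β : ∀ i, Fin (m i) → ℚ} {w : Fin k → ℕ}
  {B : ∀ i, Matrix (Fin (2 * m i)) (Fin (2 * m i)) ℂ}

/-- the form on the de Rham side -/
noncomputable abbrev JJ (β : ∀ i, Fin (m i) → ℚ) (i : Fin k) : Matrix (Fin (2 * m i)) (Fin (2 * m i)) ℂ :=
  Pool.Agent.Y119.HY.cm (Pool.Agent.Y119.HY.Jm (2 * m i) (Pool.Agent.Y119.HY.QB (β i)))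

theorem fibreProduct_eq (Ω₀ : Set (Matrix (Fin r ⊕ Unit) (Fin r ⊕ Unit) ℂ)) :
    Pool.Agent.X120.GS.FPG (n := fun i => 2 * m i) (JJ β) B w (Sum.inr ()) Ω₀ = fibreProduct β w B Ω₀ := by
  ext y
  constructor
  · rintro ⟨x, X, h1, h2, h3, rfl⟩
    have h4 := eq_withTate h2
    refine ⟨Matrix.of fun i j => x (Sum.inl i) (Sum.inl j), x (Sum.inr ()) (Sum.inr ()), X, ?_, fun i => ?_, ?_⟩
    · rw [← h4]
      exact h1
    · rw [J_eq]
      exact h3 i
    · unfold Pool.Agent.Y123.GN.EG total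
      rw [← h4]
  · rintro ⟨x, μ, X, h1, h2, rfl⟩
    refine ⟨withTate x μ, X, h1, cm_withTate x μ, fun i => ?_, rfl⟩
    have h3 := h2 i
    rw [J_eq] at h3
    exact h3

theorem respecting_sub {T : Set (Matrix (Index r m) (Index r m) ℂ)} (hT : ∀ x ∈ T, IsUnit x)
    (h : T ⊆ respecting β w B) :
    T ⊆ Pool.Agent.X120.GS.FPG (n := fun i => 2 * m i) (JJ β) B w (Sum.inr ()) {x | IsUnit x} := by
  rw [fibreProduct_eq]
  intro y hy
  obtain ⟨x, μ, X, h1, rfl⟩ := h hy
  exact ⟨x, μ, X, Pool.Agent.Y123.GN.EG_unit (n := fun i => 2 * m i) (hT _ hy), h1, rfl⟩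

theorem proj_eq {T : Set (Matrix (Index r m) (Index r m) ℂ)} (h : T ⊆ respecting β w B) :
    Pool.Agent.X120.GS.PG (n := fun i => 2 * m i) T = proj T := by
  ext v
  constructor
  · rintro ⟨X, hX⟩
    obtain ⟨x, μ, X', h1, h2⟩ := h hX
    obtain ⟨h3, -⟩ := Pool.Agent.Y123.GN.EG_inj (n := fun i => 2 * m i) (show Pool.Agent.Y123.GN.EG v X =
      Pool.Agent.Y123.GN.EG (withTate x μ) X' from h2)
    refine ⟨x, μ, X', h3, ?_⟩
    rw [← h2]
    exact hX
  · rintro ⟨x, μ, X, rfl, h1⟩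
    exact ⟨_, h1⟩

end

/-- the smallest subtorsor of `ℚ(-1)` -/
theorem omega_tate {K : Subfield ℂ} (hK : ∀ x ∈ K, IsAlgebraic ℚ x) {C₀ : Matrix (Fin 0) (Fin 0) ℂ}
    {Ω₀ : Set (Matrix (Fin 0 ⊕ Unit) (Fin 0 ⊕ Unit) ℂ)} (h : IsOmega K (withTate C₀ twoPiI) Ω₀) :
    Ω₀ = {x | IsUnit x} := by
  have hind : AlgebraicIndependent K (fun _ : (Fin 0 ⊕ Unit) × (Fin 0 ⊕ Unit) => twoPiI) := by
    have : Unique ((Fin 0 ⊕ Unit) × (Fin 0 ⊕ Unit)) :=
      { default := (Sum.inr (), Sum.inr ())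
        uniq := by
          rintro ⟨a | ⟨⟩, b | ⟨⟩⟩
          · exact a.elim0
          · exact a.elim0
          · exact b.elim0
          · rfl }
    exact (algebraicIndependent_unique_type_iff).2 (Pool.Agent.Y123.GN.tpi_tr hK)
  obtain ⟨⟨-, I, hI⟩, h2, -⟩ := h
  have hI0 : ∀ p ∈ I, p = 0 := by
    intro p hp
    have h3 := ((hI _).1 h2).2 p hp
    have h4 : (fun b : (Fin 0 ⊕ Unit) × (Fin 0 ⊕ Unit) => withTate C₀ twoPiI b.1 b.2) = fun _ => twoPiI := by
      funext b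
      obtain ⟨a | ⟨⟩, b | ⟨⟩⟩ := b
      · exact a.elim0
      · exact a.elim0
      · exact b.elim0
      · rfl
    rw [h4, MvPolynomial.eval_map] at h3
    refine hind ?_
    show MvPolynomial.aeval (fun _ => twoPiI) p = MvPolynomial.aeval (fun _ => twoPiI) 0
    rw [map_zero]
    exact h3
  ext x
  rw [hI]
  refine ⟨fun h => h.1, fun h => ⟨h, fun p hp => ?_⟩⟩
  rw [hI0 p hp, map_zero, map_zero]

/-- all conclusions from the stability of the subtorsors -/
theorem good_of {k : ℕ} {m : Fin k → ℕ} (hm : ∀ i, 1 ≤ m i) {β : ∀ i, Fin (m i) → ℚ}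
    (hβ : ∀ i, ∀ j, ∀ l : ℕ, (l : ℚ) + β i j ≠ 0 ∧ (l : ℚ) + -β i j ≠ 0) {D r : ℕ}
    {C₀ : Matrix (Fin r) (Fin r) ℂ} (hC₀ : IsUnit C₀) {Ω : ∀ i, Matrix (Fin (2 * m i)) (Fin (2 * m i)) ℂ}
    (hΩ : ∀ i, IsUnit (Ω i)) {s : Fin k → ℕ} (hs : ∀ i, 2 ≤ s i)
    (hgood : Pool.Agent.X120.GS.StaG (n := fun i => 2 * m i) D (withTate C₀ twoPiI)
      (fun i => (Pool.Agent.Y119.HZ.Yt (2 * m i) (Pool.Agent.Y119.HY.QB (β i)) (s i) * Ω i)ᵀ)
      (fun i => (Ω i)ᵀ * JJ β i * Ω i)) : Good D C₀ β Ω s := by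
  classical
  intro K hKf hKD
  have hKalg : ∀ x ∈ K, IsAlgebraic ℚ x := by
    intro x hx
    have : NumberField K := { to_charZero := inferInstance, to_finiteDimensional := hKf }
    have h6 : IsAlgebraic ℚ (⟨x, hx⟩ : K) := Algebra.IsAlgebraic.isAlgebraic _
    exact h6.algebraMap (A := ℂ)
  have hQ := fun i => Pool.Agent.Y119.HZ.QD_QB (hm i) (hβ i)
  have h2pi : twoPiI ≠ 0 := Pool.Agent.Y123.GN.tpi_ne
  have hu := withTate_unit hC₀ h2pi
  have hcm := cm_withTate C₀ twoPiI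
  have hper : periodMatrix C₀ β Ω s = Pool.Agent.Y123.GN.EG (n := fun i => 2 * m i) (withTate C₀ twoPiI)
      (Pool.Agent.Y123.GN.cM (n := fun i => 2 * m i) (fun i => Pool.Agent.Y119.HY.QB (β i)) Ω s) := by
    unfold periodMatrix
    have hY : (fun i => (Y (β i) (s i) * Ω i)ᵀ) = Pool.Agent.Y123.GN.cM (n := fun i => 2 * m i)
        (fun i => Pool.Agent.Y119.HY.QB (β i)) Ω s := by
      funext i
      unfold Pool.Agent.Y123.GN.cM
      rw [Y_eq]
    rw [hY]
    rfl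
  have hpair : ∀ i, pairing (β i) (Ω i) = Pool.Agent.Y123.GN.PM' (n := fun i => 2 * m i)
      (fun i => Pool.Agent.Y119.HY.QB (β i)) Ω i := by
    intro i
    unfold pairing Pool.Agent.Y123.GN.PM'
    rw [J_eq]
  have hsta : ∀ T : Set (Matrix (Index r m) (Index r m) ℂ), Pool.Agent.TH127.PT.IsSubtorsor K T →
      periodMatrix C₀ β Ω s ∈ T → ∀ g : ∀ i, Matrix (Fin (2 * m i)) (Fin (2 * m i)) ℂ,
      (∀ i, g i * Pool.Agent.Y123.GN.PM' (n := fun i => 2 * m i) (fun i => Pool.Agent.Y119.HY.QB (β i)) Ω i * (g i)ᵀ =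
        Pool.Agent.Y123.GN.PM' (n := fun i => 2 * m i) (fun i => Pool.Agent.Y119.HY.QB (β i)) Ω i) →
      ∀ x ∈ T, Pool.Agent.Y123.GN.EG (n := fun i => 2 * m i) 1 g * x ∈ T := by
    intro T hT hcT g hg x hx
    have hsp : ∀ i, Pool.Agent.Y123.GN.Spf (Pool.Agent.Y123.GN.PM' (n := fun i => 2 * m i)
        (fun i => Pool.Agent.Y119.HY.QB (β i)) Ω i) := fun i =>
      ⟨(Matrix.isUnit_iff_isUnit_det _).2 (isUnit_iff_ne_zero.2 (Pool.Agent.Y123.GN.PM'_det (n := fun i => 2 * m i) hQ hΩ i)),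
        Pool.Agent.Y123.GN.PM'_skew (n := fun i => 2 * m i) hQ Ω i⟩
    have hdet : ∀ i, (g i).det = 1 := fun i => Pool.Agent.Y123.GN.sp_det1 (hsp i) (hg i)
    have hgu : ∀ i, IsUnit (g i) := fun i => (Matrix.isUnit_iff_isUnit_det _).2 (by rw [hdet]; exact isUnit_one)
    rw [hper] at hcT
    exact hgood K hKf hKD T hT hcT (fun i => (hgu i).unit) (fun i => ⟨hdet i, hg i⟩) x hx
  refine ⟨?_, ?_⟩
  · intro T hT hcT g hg y hy
    have h1 := hsta T (Pool.Agent.Y123.ST.subT_iff.1 hT) hcT g (fun i => by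
      rw [← hpair]
      exact hg i) y hy
    have h2 : total (r := r) (m := m) 1 1 g = Pool.Agent.Y123.GN.EG (n := fun i => 2 * m i) 1 g := by
      unfold total
      rw [withTate_one]
      rfl
    rw [h2]
    exact h1
  · intro w B hBK hP
    have hPB : ∀ i, Pool.Agent.Y123.GN.PM' (n := fun i => 2 * m i) (fun i => Pool.Agent.Y119.HY.QB (β i)) Ω i =
        Pool.Agent.Y123.GN.tpi ^ w i • B i := by
      intro i
      rw [← hpair]
      exact hP i
    have hBd : ∀ i, (B i).det ≠ 0 := by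
      intro i h0
      apply Pool.Agent.Y123.GN.PM'_det (n := fun i => 2 * m i) hQ hΩ i
      rw [hPB, det_smul, h0, mul_zero]
    have hJK : ∀ i a b, JJ β i a b ∈ K := by
      intro i a b
      show Pool.Agent.Y119.HY.cm (Pool.Agent.Y119.HY.Jm (2 * m i) (Pool.Agent.Y119.HY.QB (β i))) a b ∈ K
      rw [Pool.Agent.Y119.HY.cm_apply]
      exact SubfieldClass.ratCast_mem K _
    have hform : ∀ i, Pool.Agent.Y123.GN.cM (n := fun i => 2 * m i) (fun i => Pool.Agent.Y119.HY.QB (β i)) Ω s i * JJ β i *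
        (Pool.Agent.Y123.GN.cM (n := fun i => 2 * m i) (fun i => Pool.Agent.Y119.HY.QB (β i)) Ω s i)ᵀ =
        Pool.Agent.Y123.GN.tpi ^ w i • B i := by
      intro i
      have h6 := Pool.Agent.Y123.GN.cM_form (n := fun i => 2 * m i) hQ Ω hs i
      rw [hPB] at h6
      exact h6
    have key : ∀ T : Set (Matrix (Index r m) (Index r m) ℂ), Pool.Agent.TH127.PT.IsSubtorsor K T →
        periodMatrix C₀ β Ω s ∈ T →
        T ⊆ Pool.Agent.X120.GS.FPG (n := fun i => 2 * m i) (JJ β) B w (Sum.inr ()) {x | IsUnit x} →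
        Pool.Agent.TH127.PT.IsSubtorsor K (Pool.Agent.X120.GS.PG (n := fun i => 2 * m i) T) ∧
          T = Pool.Agent.X120.GS.FPG (n := fun i => 2 * m i) (JJ β) B w (Sum.inr ()) (Pool.Agent.X120.GS.PG T) := by
      intro T hT hcT hTF
      refine Pool.Agent.X120.GS.pg_all (n := fun i => 2 * m i) (fun i => Pool.Agent.Y119.HY.Jc_skew (hQ i))
        (fun i => Pool.Agent.Y119.HY.Jc_det (hQ i)) hBd hT hTF ?_ Pool.Agent.Y123.GN.tpi_ne hform
      intro g hg x hx
      refine hsta T hT hcT g (fun i => ?_) x hx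
      rw [hPB, Matrix.mul_smul, Matrix.smul_mul, hg]
    refine ⟨?_, ?_⟩
    · intro T hT hcT hTr
      have hT'' := Pool.Agent.Y123.ST.subT_iff.1 hT
      obtain ⟨h5, h6⟩ := key T hT'' hcT (respecting_sub hT''.isUnit hTr)
      rw [proj_eq hTr] at h5 h6
      rw [fibreProduct_eq] at h6
      exact ⟨Pool.Agent.Y123.ST.subT_iff.2 h5, h6⟩
    · have hΩ₀ := Pool.Agent.Y123.SR.OmS_om (K := K) hu
      refine ⟨_, hΩ₀, ?_, ?_⟩
      · rintro rfl
        exact omega_tate hKalg hΩ₀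
      · have h5 := Pool.Agent.X120.GS.pg_om (n := fun i => 2 * m i) (b₀ := Sum.inr ()) (w := w)
          (c := Pool.Agent.Y123.GN.cM (n := fun i => 2 * m i)
            (fun i => Pool.Agent.Y119.HY.QB (β i)) Ω s) hBd hJK hBK hu hcm hform (fun T hT hcT hTF => by
          have h6 := key T hT (by rw [hper]; exact hcT) hTF
          exact ⟨h6.2, h6.1⟩) hΩ₀
        rw [fibreProduct_eq] at h5
        rw [hper]
        exact h5

/-- **The theorem.** -/
theorem result (k : ℕ) (m : Fin k → ℕ) (hm : ∀ i, 1 ≤ m i) (β : ∀ i, Fin (m i) → ℚ)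
    (hβ : ∀ i j, ∀ a : ℤ, β i j ≠ a) (b : Fin k → ℕ) (hb : ∀ i, 2 ≤ b i) :
    -- number fields of degree at most `D`, `M_0` of rank `r`
    (∀ D r : ℕ, ∃ C : ℝ, 0 ≤ C ∧ ∀ C₀ : Matrix (Fin r) (Fin r) ℂ, IsUnit C₀ →
      ∀ Ω : (∀ i, Matrix (Fin (2 * m i)) (Fin (2 * m i)) ℂ), (∀ i, IsUnit (Ω i)) → ∀ N : ℕ, 2 ≤ N →
      (({t : Fin k → ℕ | (∀ i, 1 ≤ t i ∧ t i ≤ N) ∧ ¬ Good D C₀ β Ω fun i => b i ^ t i}.ncard : ℕ) : ℝ) * N ≤
        C * (N : ℝ) ^ k * Real.log N) ∧
    -- all number fields of degree at most `M N`, all `M_0` of rank at most `M N`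
    (∃ (M : ℕ → ℕ) (ε : ℕ → ℝ), Tendsto M atTop atTop ∧ Tendsto ε atTop (nhds 0) ∧
      ∀ N : ℕ, 2 ≤ N → ∀ r ≤ M N, ∀ C₀ : Matrix (Fin r) (Fin r) ℂ, IsUnit C₀ →
      ∀ Ω : (∀ i, Matrix (Fin (2 * m i)) (Fin (2 * m i)) ℂ), (∀ i, IsUnit (Ω i)) →
      (({t : Fin k → ℕ | (∀ i, 1 ≤ t i ∧ t i ≤ N) ∧ ¬ Good (M N) C₀ β Ω fun i => b i ^ t i}.ncard : ℕ) : ℝ) ≤
        ε N * (N : ℝ) ^ k) := by
  classical
  have hβ' : ∀ i, ∀ j, ∀ l : ℕ, (l : ℚ) + β i j ≠ 0 ∧ (l : ℚ) + -β i j ≠ 0 := by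
    intro i j l
    constructor
    · intro h
      apply hβ i j (-(l : ℤ))
      push_cast
      linear_combination h
    · intro h
      apply hβ i j (l : ℤ)
      push_cast
      linear_combination -h
  have hQ := fun i => Pool.Agent.Y119.HZ.QD_QB (hm i) (hβ' i)
  have hmain : ∀ D r : ℕ, ∃ C : ℝ, 0 ≤ C ∧ ∀ C₀ : Matrix (Fin r) (Fin r) ℂ, IsUnit C₀ →
      ∀ Ω : (∀ i, Matrix (Fin (2 * m i)) (Fin (2 * m i)) ℂ), (∀ i, IsUnit (Ω i)) → ∀ N : ℕ, 2 ≤ N →
      (({t : Fin k → ℕ | (∀ i, 1 ≤ t i ∧ t i ≤ N) ∧ ¬ Good D C₀ β Ω fun i => b i ^ t i}.ncard : ℕ) : ℝ) * N ≤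
        C * (N : ℝ) ^ k * Real.log N := by
    intro D r
    obtain ⟨d, hd⟩ := Pool.Agent.X120.GS.sta_of (Fintype.card (Fin r ⊕ Unit) + ∑ i, 2 * m i) D
    obtain ⟨C, hC, hcount⟩ := Pool.Agent.X120.GS.hyp_relS (Fin r ⊕ Unit) k 1 d (fun i => 2 * m i)
      (fun i => Pool.Agent.Y119.HY.QB (β i)) hQ (fun i μ hμ => by
        exact Pool.Agent.X120.GS.QB_rat (β i) hμ) (fun i a b => Pool.Agent.Y119.HY.sdc_hps (hβ' i) (hQ i) a b) hb
    refine ⟨C, hC, ?_⟩
    intro C₀ hC₀ Ω hΩ N hN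
    set S := {t : Fin k → ℕ | (∀ i, 1 ≤ t i ∧ t i ≤ N) ∧ ¬ Good D C₀ β Ω fun i => b i ^ t i} with hS
    have hfin : S.Finite := by
      refine (Set.finite_Iic (fun _ : Fin k => N)).subset ?_
      intro t ht i
      exact (ht.1 i).2
    rw [Set.ncard_eq_toFinset_card S hfin]
    refine hcount Ω hΩ (withTate C₀ twoPiI) N hN hfin.toFinset fun t ht => ?_
    have ht' := hfin.mem_toFinset.1 ht
    refine ⟨ht'.1, fun hgood => ht'.2 ?_⟩
    have hs : ∀ i, 2 ≤ b i ^ t i := fun i => (hb i).trans (Nat.le_self_pow (by have := (ht'.1 i).1; omega) _)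
    refine good_of hm hβ' hC₀ hΩ hs (hd (Fin r ⊕ Unit) k (fun i => 2 * m i) le_rfl _ _ _ (fun i => Or.inr (Or.inl ?_)) hgood)
    exact ⟨(Matrix.isUnit_iff_isUnit_det _).2 (isUnit_iff_ne_zero.2 (Pool.Agent.Y123.GN.PM'_det (n := fun i => 2 * m i) hQ hΩ i)),
        Pool.Agent.Y123.GN.PM'_skew (n := fun i => 2 * m i) hQ Ω i⟩
  refine ⟨hmain, ?_⟩
  choose C hC hcount using hmain
  obtain ⟨D, hD, hδ⟩ := Pool.Agent.Y123.GN.diag_seq (fun D N => (∑ r ∈ Finset.range (D + 1), C D r) * (Real.log N / N)) (by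
      intro D
      have h1 : Tendsto (fun N : ℕ => Real.log N / N) atTop (nhds 0) :=
        (Real.isLittleO_log_id_atTop.tendsto_div_nhds_zero).comp tendsto_natCast_atTop_atTop
      have h5 := h1.const_mul (∑ r ∈ Finset.range (D + 1), C D r)
      rw [mul_zero] at h5
      exact h5)
  refine ⟨D, _, hD, hδ, ?_⟩
  intro N hN r hr C₀ hC₀ Ω hΩ
  have h1 := hcount (D N) r C₀ hC₀ Ω hΩ N hN
  have hN0 : (0 : ℝ) < N := by
    have : 0 < N := by omega
    exact_mod_cast this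
  rw [← le_div_iff₀ hN0] at h1
  have h2 : C (D N) r ≤ ∑ r ∈ Finset.range (D N + 1), C (D N) r :=
    Finset.single_le_sum (f := fun r => C (D N) r) (fun r _ => hC (D N) r) (Finset.mem_range.2 (by omega))
  have hlog : 0 ≤ Real.log N := Real.log_nonneg (by exact_mod_cast (by omega : 1 ≤ N))
  refine h1.trans ?_
  have h3 : C (D N) r * (N : ℝ) ^ k * Real.log N / N = C (D N) r * (Real.log N / N) * (N : ℝ) ^ k := by ring
  rw [h3]
  refine mul_le_mul_of_nonneg_right (mul_le_mul_of_nonneg_right h2 ?_) (by positivity)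
  positivity

end Pool.Agent.Results.MP_cbf1af_ag.HypergeometricTorsorsAtPowers
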